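import Pool.Agent.Helper51.FR.Mf0
import Pool.Agent.Helper17.N9.N9K

/-!
MP_c75db0, Plan W, row M7 (km): exact models of helper17's forms `Kf` (constant, or tensor quadratic
with tables of 24-bit fields at the 27 nodes).
-/

set_option autoImplicit false
set_option exponentiation.threshold 4000
noncomputable section
namespace Pool.Agent.Helper51.FR

open Matrix Finset
open Pool.Agent.Helper90.C75 (Vt avg wtT bt avg_const avg_T_succ Wts Mod)
open Pool.Agent.Helper90.KMT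
open Pool.Agent.Helper90.KMO (UU UU_pos cz zv zv_p)
open Pool.Agent.Helper86.C75 (Z)
open Pool.Agent.Helper86.CX (Cx)
open Pool.Agent.Helper86.CT (N3 Alg Mo KM mk A0 A1 A2 A3)
open Pool.Agent.Helper91.BX (avg_bt' PT.pr tu tu_lt)
open Pool.Agent.Helper82.TST (HK)
open Pool.Agent.Helper6.MONO.W2 (Mt)
open Pool.Agent.Helper21.SW (T3 lf3)
open Pool.Agent.Helper17.N9 (Kf u24 frl tabM nlg ndT KfM KfM_c KfM_q KfM_congr)

/-! ### kernel side -/

/-- twice the quadratic function with the values `x`, `y`, `z` at `0`, `1/2`, `1` (in one more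
direction) -/
def nd3 {α : Type} (A : Alg α) (x y z : α) : N3 α :=
  N3.q (A.add x x) (A.sub (A.sub (A.add (A.add y y) (A.add y y)) x) z) (A.add z z)

/-- eight times the tensor quadratic function with the values `g` at the nodes -/
def q9 (g : Nat → Cx) (k : Nat) : N3 (N3 Cx) :=
  nd3 A1
    (nd3 A0 (g k) (g (Nat.shiftRight k (nat_lit 216))) (g (Nat.shiftRight k (nat_lit 432))))
    (nd3 A0 (g (Nat.shiftRight k (nat_lit 648))) (g (Nat.shiftRight k (nat_lit 864)))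
      (g (Nat.shiftRight k (nat_lit 1080))))
    (nd3 A0 (g (Nat.shiftRight k (nat_lit 1296))) (g (Nat.shiftRight k (nat_lit 1512)))
      (g (Nat.shiftRight k (nat_lit 1728))))
def q27 (g : Nat → Cx) (k : Nat) : T3 :=
  nd3 A2 (q9 g k) (q9 g (Nat.shiftRight k (nat_lit 1944))) (q9 g (Nat.shiftRight k (nat_lit 3888)))

/-- the field at the bit `s` of the table `k`, times `2 ^ e` -/
def f24 (e k s : Nat) : Z := Z.sub' (Nat.shiftLeft (u24 k s) e) (Nat.shiftLeft (nat_lit 8388608) e)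
def l24R (e s k : Nat) : Cx := ⟨f24 e k s, Z.p (nat_lit 0)⟩
def l24C (e s k : Nat) : Cx := ⟨f24 e k s, f24 e k (Nat.add s (nat_lit 24))⟩

def kmH (f : (Nat → Cx) → T3) (e : Nat) : KM T3 :=
  ⟨mk A3 (f (l24R e (nat_lit 0))) (nat_lit 0), mk A3 (f (l24R e (nat_lit 24))) (nat_lit 0),
    mk A3 (f (l24R e (nat_lit 48))) (nat_lit 0), mk A3 (f (l24C e (nat_lit 72))) (nat_lit 0),
    mk A3 (f (l24C e (nat_lit 120))) (nat_lit 0), mk A3 (f (l24C e (nat_lit 168))) (nat_lit 0)⟩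

/-- THE MODELS OF A FORM -/
def kmK (k : Kf) : KM T3 :=
  Kf.rec (motive := fun _ => KM T3) (fun k => kmH (fun g => A3.cs (g k)) (nat_lit 25))
    (fun k => kmH (fun g => q27 g k) (nat_lit 22)) k

/-! ### real side -/

section

variable {α : Type} {D : ℕ} {lf : α → Vt D → ℂ} {A : Alg α} {t : ℕ → ℝ}

theorem avg_sub2 (w : Vt D → ℝ) (F G : Vt D → ℂ) :
    avg w (fun v => F v - G v) = avg w F - avg w G := by
  unfold avg
  rw [← Finset.sum_sub_distrib]
  refine Finset.sum_congr rfl fun v _ => ?_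
  ring

/-- the interpolation of three numbers -/
def lag (s : ℝ) (x y z : ℂ) : ℂ := ((nlg 0 s : ℝ) : ℂ) * x + ((nlg 1 s : ℝ) : ℂ) * y +
  ((nlg 2 s : ℝ) : ℂ) * z

theorem av_nd3 (hA : AOK D lf A) (x y z : α) :
    avg (wtT (D + 1) t) (nlf lf (nd3 A x y z)) = 2 * lag (t D) (avg (wtT D t) (lf x))
      (avg (wtT D t) (lf y)) (avg (wtT D t) (lf z)) := by
  have ka : ∀ a b : α, avg (wtT D t) (lf (A.add a b)) =
      avg (wtT D t) (lf a) + avg (wtT D t) (lf b) := by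
    intro a b
    have e : lf (A.add a b) = fun v => lf a v + lf b v := funext fun v => hA.law.hadd a b v
    rw [e, avg_add2]
  have ks : ∀ a b : α, avg (wtT D t) (lf (A.sub a b)) =
      avg (wtT D t) (lf a) - avg (wtT D t) (lf b) := by
    intro a b
    have e : lf (A.sub a b) = fun v => lf a v - lf b v := funext fun v => hA.law.hsub a b v
    rw [e, avg_sub2]
  rw [avg_T_succ, avg_bt']
  show _ * avg (wtT D t) (lf (A.add x x)) + _ * avg (wtT D t)
      (lf (A.sub (A.sub (A.add (A.add y y) (A.add y y)) x) z)) +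
    _ * avg (wtT D t) (lf (A.add z z)) = _
  rw [ka, ka, ks, ks, ka, ka]
  unfold lag nlg
  simp only [if_true, OfNat.ofNat_ne_zero, OfNat.ofNat_ne_one, one_ne_zero, if_false]
  push_cast
  ring

/-- the tensor quadratic function -/
def lag9 (t : ℕ → ℝ) (f : ℕ → ℂ) : ℂ :=
  lag (t 1) (lag (t 0) (f 0) (f 216) (f 432)) (lag (t 0) (f 648) (f 864) (f 1080))
    (lag (t 0) (f 1296) (f 1512) (f 1728))
def lag27 (t : ℕ → ℝ) (f : ℕ → ℂ) : ℂ :=
  lag (t 2) (lag9 t f) (lag9 t fun n => f (1944 + n)) (lag9 t fun n => f (3888 + n))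

theorem shiftRight_add' (k m n : ℕ) : Nat.shiftRight (Nat.shiftRight k m) n =
    Nat.shiftRight k (m + n) := (Nat.shiftRight_add k m n).symm

theorem av_q9 (g : ℕ → Cx) (k : ℕ) : avg (wtT 2 t) (nlf (nlf lf0) (q9 g k)) =
    4 * lag9 t fun n => cz (g (Nat.shiftRight k n)) := by
  unfold q9
  rw [av_nd3 A1_ok, av_nd3 A0_ok, av_nd3 A0_ok, av_nd3 A0_ok]
  simp only [avg_zero]
  unfold lag9 lag
  have e : Nat.shiftRight k 0 = k := rfl
  simp only [e]
  ring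

theorem av_q27 (g : ℕ → Cx) (k : ℕ) : avg (wtT 3 t) (lf3 (q27 g k)) =
    8 * lag27 t fun n => cz (g (Nat.shiftRight k n)) := by
  unfold lf3 q27
  rw [av_nd3 A2_ok, av_q9, av_q9, av_q9]
  simp only [shiftRight_add']
  unfold lag27 lag
  ring

/-- the sum of the definition of the forms -/
theorem lag27_sum (f : ℕ → ℂ) : lag27 t f = ∑ i2 ∈ range 3, ∑ i1 ∈ range 3, ∑ i0 ∈ range 3,
    ((nlg i2 (t 2) * nlg i1 (t 1) * nlg i0 (t 0) : ℝ) : ℂ) * f (216 * (i0 + 3 * i1 + 9 * i2)) := by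
  simp only [Finset.sum_range_succ, Finset.sum_range_zero, zero_add]
  unfold lag27 lag9 lag
  push_cast
  norm_num
  ring

theorem KfM_entry (k : ℕ) (t : ℕ → ℝ) (i j : Fin 3) : KfM (.q k) t i j =
    lag27 t fun n => tabM (Nat.shiftRight k n) i j := by
  rw [KfM_q, lag27_sum]
  simp only [Matrix.sum_apply, Matrix.smul_apply, smul_eq_mul]
  rfl

end

/-! ### fields -/

theorem zv_f24 (e k s : ℕ) : ((zv (f24 e k s) : ℤ) : ℝ) = 2 ^ (e + 23) * (((u24 k s : ℕ) : ℝ) / 2 ^ 23 - 1) := by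
  have h : zv (f24 e k s) = (((u24 k s) <<< e : ℕ) : ℤ) - ((8388608 <<< e : ℕ) : ℤ) :=
    Pool.Agent.Helper90.KMO.zv_br _ _
  rw [h, Nat.shiftLeft_eq, Nat.shiftLeft_eq]
  push_cast
  rw [pow_add]
  norm_num
  ring

theorem cz_l24R (e p k : ℕ) : cz (l24R e (24 * p) k) =
    ((2 ^ (e + 23) : ℝ) : ℂ) * (⟨frl k p, 0⟩ : ℂ) := by
  apply Complex.ext
  · show ((zv (f24 e k (24 * p)) : ℤ) : ℝ) = _
    rw [zv_f24, Complex.re_ofReal_mul]
    rfl
  · show ((zv (Z.p (nat_lit 0)) : ℤ) : ℝ) = _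
    rw [Complex.im_ofReal_mul, zv_p]
    simp

theorem cz_l24C (e p k : ℕ) : cz (l24C e (24 * p) k) =
    ((2 ^ (e + 23) : ℝ) : ℂ) * (⟨frl k p, frl k (p + 1)⟩ : ℂ) := by
  apply Complex.ext
  · show ((zv (f24 e k (24 * p)) : ℤ) : ℝ) = _
    rw [zv_f24, Complex.re_ofReal_mul]
    rfl
  · show ((zv (f24 e k (24 * p + 24)) : ℤ) : ℝ) = _
    rw [zv_f24, Complex.im_ofReal_mul]
    rfl

theorem tabM_hm (k : ℕ) (i j : Fin 3) : tabM k j i = star (tabM k i j) := by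
  have h0 : ∀ x : ℝ, (⟨x, 0⟩ : ℂ) = star (⟨x, 0⟩ : ℂ) := fun x => by
    apply Complex.ext <;> simp
  have h1 : ∀ x y : ℝ, (⟨x, -y⟩ : ℂ) = star (⟨x, y⟩ : ℂ) := fun x y => by
    apply Complex.ext <;> simp
  have h2 : ∀ x y : ℝ, (⟨x, y⟩ : ℂ) = star (⟨x, -y⟩ : ℂ) := fun x y => by
    apply Complex.ext <;> simp
  fin_cases i <;> fin_cases j
  · exact h0 _
  · exact h1 _ _
  · exact h1 _ _
  · exact h2 _ _
  · exact h0 _
  · exact h1 _ _
  · exact h2 _ _
  · exact h2 _ _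
  · exact h0 _

theorem lag27_star (t : ℕ → ℝ) (f : ℕ → ℂ) : (lag27 t fun n => star (f n)) = star (lag27 t f) := by
  have e : ∀ r : ℝ, star (r : ℂ) = (r : ℂ) := fun r => Complex.conj_ofReal r
  unfold lag27 lag9 lag
  simp only [star_add, star_mul', e]

theorem lag27_mul (t : ℕ → ℝ) (c : ℂ) (f : ℕ → ℂ) : (lag27 t fun n => c * f n) = c * lag27 t f := by
  unfold lag27 lag9 lag
  ring

theorem KfM_hm (k : Kf) (t : ℕ → ℝ) (i j : Fin 3) : KfM k t j i = star (KfM k t i j) := by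
  cases k with
  | c k => exact tabM_hm k i j
  | q k =>
    rw [KfM_entry, KfM_entry, ← lag27_star]
    simp only [← tabM_hm]

/-! ### the models -/

section

variable {t : ℕ → ℝ}

theorem UUc25 : (UU : ℂ) = ((2 ^ (25 + 23) : ℝ) : ℂ) := by
  unfold UU
  norm_num

theorem UUc22 : (UU : ℂ) = 8 * ((2 ^ (22 + 23) : ℝ) : ℂ) := by
  unfold UU
  norm_num

theorem TOK_c {g : ℕ → Cx} {f : ℕ → ℂ} (hP : PT 3 t) (h : ∀ k, cz (g k) = ((2 ^ (25 + 23) : ℝ) : ℂ) * f k)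
    (k : ℕ) : TOK 3 lf3 t (f k) (mk A3 (A3.cs (g k)) (nat_lit 0)) := by
  refine TOK_ex ?_
  rw [av_cs hP, h, UUc25]

theorem TOK_q {g : ℕ → Cx} {f : ℕ → ℂ} (h : ∀ k, cz (g k) = ((2 ^ (22 + 23) : ℝ) : ℂ) * f k)
    (k : ℕ) : TOK 3 lf3 t (lag27 t fun n => f (Nat.shiftRight k n)) (mk A3 (q27 g k) (nat_lit 0)) := by
  refine TOK_ex ?_
  rw [av_q27, UUc22]
  simp only [h]
  rw [lag27_mul, mul_assoc]

/-- **THE MODELS OF A FORM** -/
theorem HK_kmK (hP : PT 3 t) (k : Kf) : HK 3 lf3 t (KfM k t) (kmK k) := by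
  cases k with
  | c k =>
    exact ⟨TOK_c hP (fun k => cz_l24R 25 0 k) k, TOK_c hP (fun k => cz_l24R 25 1 k) k,
      TOK_c hP (fun k => cz_l24R 25 2 k) k, TOK_c hP (fun k => cz_l24C 25 3 k) k,
      TOK_c hP (fun k => cz_l24C 25 5 k) k, TOK_c hP (fun k => cz_l24C 25 7 k) k, KfM_hm (.c k) t⟩
  | q k =>
    have e : ∀ i j, KfM (.q k) t i j = lag27 t fun n => tabM (Nat.shiftRight k n) i j :=
      fun i j => KfM_entry k t i j
    refine ⟨?_, ?_, ?_, ?_, ?_, ?_, KfM_hm (.q k) t⟩ <;> rw [e]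
    · exact TOK_q (fun k => cz_l24R 22 0 k) k
    · exact TOK_q (fun k => cz_l24R 22 1 k) k
    · exact TOK_q (fun k => cz_l24R 22 2 k) k
    · exact TOK_q (fun k => cz_l24C 22 3 k) k
    · exact TOK_q (fun k => cz_l24C 22 5 k) k
    · exact TOK_q (fun k => cz_l24C 22 7 k) k

/-- the field `up` -/
theorem KfM_tu (k : Kf) (t : ℕ → ℝ) (u : ℝ) : KfM k (tu 3 t u) = KfM k t :=
  KfM_congr k fun _ hj => tu_lt hj u

end

end Pool.Agent.Helper51.FR
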