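import Pool.Agent.Helper51.FR.Frame2
import Pool.Agent.Helper62.C75.LBM
import Pool.Agent.Helper12.CW.NF7

/-!
MP_c75db0, Plan W, row M7 (part): the record of a letter; the facts about the family of the runs
of a letter (`c3`, `t3`, `H3` of `PtF`) by a Boolean test.
-/

set_option autoImplicit false
noncomputable section
namespace Pool.Agent.Helper51.FR

open Pool.Agent.Helper90.C75
open Pool.Agent.Helper90.KMT
open Pool.Agent.Helper90.KMO
open Pool.Agent.Helper86.C75 (Z)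
open Pool.Agent.Helper86.CX (Cx andB)
open Pool.Agent.Helper86.CT (Alg Mo er mk cst addM subM mulM conjM invM invOK)
open Pool.Agent.Helper62.SQM
open Pool.Agent.Helper62.TVM
open Pool.Agent.Helper62.LBM
open Pool.Agent.Helper6.MONO (Kp)
open Pool.Agent.Helper6.MONO.W2 (cX cY cZ cR cB vC cRd cBd wC cW ep phi ev nc ns nsd nW nWd Sy
  rn h1 h2 tt st_NR2)

/-! ### the record of a letter -/

/-- models of `ev`, `e ^ k` (rotation), `nW`, `nWd`, `ns`, `nsd` -/
structure LM (α : Type) where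
  E : Mo α
  P : Mo α
  w : Mo α
  wd : Mo α
  s : V3m α
  sd : V3m α

def lt1 {α : Type} (A : Alg α) (x : BxM α) (F : FrM α) (E P : Mo α) : LM α :=
  ⟨E, P, ncw A x.e E F, ncd A x.ki x.e E, nsM A E (ncM A E F.v), nsM A E (ncM A E F.w)⟩
/-- THE RECORD OF THE LETTER `(a, k)` -/
def ltM {α : Type} (A : Alg α) (x : BxM α) (F : FrM α) (a : Bool) (k : Nat) : LM α :=
  lt1 A x F (evM A x.e a k) (erM A x.e a k)

section

variable {α : Type} {D : ℕ} {lf : α → Vt D → ℂ} {A : Alg α} {t : ℕ → ℝ}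

structure LOK (D : ℕ) (lf : α → Vt D → ℂ) (t : ℕ → ℝ) (p : ℕ) (v vd : Fin 3 → ℂ) (g : Sy)
    (L : LM α) : Prop where
  E : TOK D lf t (ev (phi p) g.1 g.2) L.E
  P : TOK D lf t ((if g.1 then star (ep (phi p)) else ep (phi p)) ^ g.2) L.P
  w : TOK D lf t ((nW (phi p) v g : ℝ) : ℂ) L.w
  wd : TOK D lf t ((nWd (phi p) v vd g : ℝ) : ℂ) L.wd
  s : TW D lf t (ns (phi p) v g.1 g.2) L.s
  sd : TW D lf t (nsd (phi p) vd g.1 g.2) L.sd

theorem LOK_lt (hA : AOK D lf A) (hP : PT D t) {p : ℕ} {W a b : ℝ} {x : BxM α} {f : FrM α}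
    (hx : BxOK D lf t p W a b x) (hf : FrOK D lf t p W a b f)
    (hR : 0 < W ^ 2 - cX p W a b ^ 2 - cY p a b ^ 2) (hW : 2 < W) (g : Sy) :
    LOK D lf t p (vC p W a b) (wC p W a b) g (ltM A x f g.1 g.2) := by
  have hE := TOK_ev hA hP hx.e g.1 g.2
  exact ⟨hE, TOK_er hA hP hx.e g.1 g.2, TOK_ncw hA hP hx hf hR.le (by linarith) hE,
    TOK_ncd hA hP hx hR hW hE, TW_ns hA hP hE (TOK_nc hA hP hE hf.v),
    TW_nsd hA hP hE (TOK_nc hA hP hE hf.w)⟩

/-! ### the family of the runs -/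

/-- `ch = al - be w`, `h1 ≥ H`, first break point `t0`; `w` is in the disc `m`, `c`; `l` a lower
bound of `w` (or of `4`); centres `c1` of `ρ_6 - t0 ch`, `c2` of `h1 - H` -/
structure PtE where
  al : Nat
  be : Nat
  H : Nat
  t0 : Nat
  m : Nat
  c : Nat
  l : Nat
  c1 : Nat
  c2 : Nat

end

def orB (a b : Bool) : Bool := Bool.rec (motive := fun _ => Bool) b true a
def cen2 {α : Type} (A : Alg α) (m c : Nat) (F : Mo α) : Bool := cenOK A m c F.r F.v
/-- `ch` -/
def chM {α : Type} (A : Alg α) (al be : Nat) (W : Mo α) : Mo α :=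
  subM A (cst A al (nat_lit 0)) (mulM A (cst A be (nat_lit 0)) W)
/-- `w + ch² ≤ w ch` at `w = W / 2 ^ 48`, `C = 2 ^ 96 ch` -/
def qd1 (W C : Nat) : Bool :=
  Nat.ble (Nat.add (Nat.mul W (nat_lit 22300745198530623141535718272648361505980416)) (Nat.mul C C))
    (Nat.mul (Nat.mul (nat_lit 281474976710656) W) C)
def qd (al be W : Nat) : Bool :=
  qd1 W (Nat.sub (Nat.mul al (nat_lit 281474976710656)) (Nat.mul be W))
def pt3 {α : Type} (A : Alg α) (P : PtE) (C : Mo α) (x : RH α) : Bool :=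
  andB (cen2 A (nat_lit 0) P.c1 (subM A x.r (mulM A (cst A P.t0 (nat_lit 0)) C)))
    (cen2 A (nat_lit 0) P.c2 (subM A x.h (cst A P.H (nat_lit 0))))
def pt2 {α : Type} (A : Alg α) (W I : Mo α) (P : PtE) : Bool :=
  andB (rhOK A W I (nat_lit 5)) (pt3 A P (chM A P.al P.be W) (rhM A W I (nat_lit 5)))
def pt1 (P : PtE) (u : Nat) : Bool :=
  andB (Nat.ble (Nat.succ (Nat.mul P.be u)) (Nat.mul P.al (nat_lit 281474976710656)))
    (andB (qd P.al P.be P.l) (qd P.al P.be u))
/-- THE TEST -/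
def ptB {α : Type} (A : Alg α) (W : Mo α) (P : PtE) : Bool :=
  andB (cen2 A P.m P.c W) (andB (orB (Nat.ble P.l (nat_lit 1125899906842624)) (Nat.ble P.l P.m))
    (andB (pt1 P (Nat.sub (Nat.add P.c P.c) P.m)) (andB (Nat.ble (nat_lit 1) P.H)
      (andB (invOK A W) (pt2 A W (invM A W) P)))))

section

variable {α : Type} {D : ℕ} {lf : α → Vt D → ℂ} {A : Alg α} {t : ℕ → ℝ}

theorem cst_nat (hA : AOK D lf A) (hP : PT D t) (n : ℕ) :
    TOK D lf t (((n : ℝ) / UU : ℝ) : ℂ) (cst A n (nat_lit 0)) := by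
  refine TOK.cst' hA hP ?_
  have := UUc_ne
  push_cast
  field_simp

/-- the quadratic is concave -/
theorem qd_conc {al be w w0 w1 : ℝ} (hb : 0 ≤ be) (h0 : w0 ≤ w) (h1 : w ≤ w1)
    (g0 : w0 + (al - be * w0) ^ 2 ≤ w0 * (al - be * w0))
    (g1 : w1 + (al - be * w1) ^ 2 ≤ w1 * (al - be * w1)) :
    w + (al - be * w) ^ 2 - w * (al - be * w) ≤ 0 := by
  rcases (h0.trans h1).eq_or_lt with h | h
  · have : w = w0 := le_antisymm (h1.trans h.ge) h0
    rw [this]
    linarith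
  · have key : (w1 - w0) * (w * (al - be * w) - w - (al - be * w) ^ 2) =
        (w1 - w) * (w0 * (al - be * w0) - w0 - (al - be * w0) ^ 2) +
        (w - w0) * (w1 * (al - be * w1) - w1 - (al - be * w1) ^ 2) +
        (be + be ^ 2) * ((w - w0) * (w1 - w) * (w1 - w0)) := by ring
    have a1 : 0 ≤ (w1 - w) * (w0 * (al - be * w0) - w0 - (al - be * w0) ^ 2) :=
      mul_nonneg (by linarith) (by linarith)
    have a2 : 0 ≤ (w - w0) * (w1 * (al - be * w1) - w1 - (al - be * w1) ^ 2) :=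
      mul_nonneg (by linarith) (by linarith)
    have a3 : 0 ≤ (be + be ^ 2) * ((w - w0) * (w1 - w) * (w1 - w0)) := by
      have : 0 ≤ w - w0 := by linarith
      have : 0 ≤ w1 - w := by linarith
      have : 0 ≤ w1 - w0 := by linarith
      positivity
    have a4 : 0 ≤ (w1 - w0) * (w * (al - be * w) - w - (al - be * w) ^ 2) := by
      rw [key]
      linarith
    have := nonneg_of_mul_nonneg_right a4 (by linarith)
    linarith

theorem UU_nat : ((281474976710656 : ℕ) : ℝ) = UU := by unfold UU; norm_num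

theorem qd_ok {al be W : ℕ} (hb : be * W ≤ al * 281474976710656) (h : qd al be W = true) :
    (W / UU : ℝ) + ((al / UU : ℝ) - be / UU * (W / UU)) ^ 2 ≤
      (W / UU : ℝ) * ((al / UU : ℝ) - be / UU * (W / UU)) := by
  have hU := UU_pos
  have h1 : W * 281474976710656 ^ 3 + (al * 281474976710656 - be * W) *
      (al * 281474976710656 - be * W) ≤ 281474976710656 * W * (al * 281474976710656 - be * W) :=
    Nat.le_of_ble_eq_true h
  have h2 : ((W * 281474976710656 ^ 3 + (al * 281474976710656 - be * W) *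
      (al * 281474976710656 - be * W) : ℕ) : ℝ) ≤
      ((281474976710656 * W * (al * 281474976710656 - be * W) : ℕ) : ℝ) := by exact_mod_cast h1
  have e : ((al * 281474976710656 - be * W : ℕ) : ℝ) = al * UU - be * W := by
    rw [Nat.cast_sub hb, Nat.cast_mul, Nat.cast_mul, UU_nat]
  rw [Nat.cast_add, Nat.cast_mul, Nat.cast_mul, Nat.cast_mul, Nat.cast_mul, e, Nat.cast_pow,
    UU_nat] at h2
  have h3 : (W / UU : ℝ) + ((al / UU : ℝ) - be / UU * (W / UU)) ^ 2 =
      (W * UU ^ 3 + (al * UU - be * W) * (al * UU - be * W)) / UU ^ 4 := by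
    field_simp
  have h4 : (W / UU : ℝ) * ((al / UU : ℝ) - be / UU * (W / UU)) =
      (UU * W * (al * UU - be * W)) / UU ^ 4 := by
    field_simp
  rw [h3, h4]
  exact div_le_div_of_nonneg_right h2 (by positivity)

/-- THE FACTS ABOUT THE FAMILY OF A LETTER -/
theorem pt_ok (hA : AOK D lf A) (hP : PT D t) {w : ℝ} {W : Mo α} (hw : TOK D lf t (w : ℂ) W)
    (h4 : 4 ≤ w) {P : PtE} (h : ptB A W P = true) :
    0 < (P.al / UU : ℝ) - P.be / UU * w ∧
    w + ((P.al / UU : ℝ) - P.be / UU * w) ^ 2 - w * ((P.al / UU : ℝ) - P.be / UU * w) ≤ 0 ∧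
    (P.t0 / UU : ℝ) * ((P.al / UU : ℝ) - P.be / UU * w) ≤ rn w 6 ∧
    0 < (P.H / UU : ℝ) ∧ (P.H / UU : ℝ) ≤ h1 w 6 := by
  have hU := UU_pos
  obtain ⟨b1, h⟩ := andB_t' h
  obtain ⟨b2, h⟩ := andB_t' h
  obtain ⟨b3, h⟩ := andB_t' h
  obtain ⟨b4, h⟩ := andB_t' h
  obtain ⟨b5, h⟩ := andB_t' h
  obtain ⟨b6, h⟩ := andB_t' h
  obtain ⟨b7, b8⟩ := andB_t' h
  obtain ⟨b9, b10⟩ := andB_t' b3
  obtain ⟨b11, b12⟩ := andB_t' b10
  have lb := TOK_lb hA hP hw b1
  have ub := TOK_ub hA hP hw b1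
  rw [Complex.ofReal_re] at lb ub
  set u : ℕ := P.c + P.c - P.m with hu
  have hmc : (P.m : ℝ) ≤ 2 * P.c := by linarith
  have hmc' : P.m ≤ P.c + P.c := by
    have : (P.m : ℝ) ≤ ((P.c + P.c : ℕ) : ℝ) := by push_cast; linarith
    exact_mod_cast this
  have eu : ((u : ℕ) : ℝ) = 2 * P.c - P.m := by
    rw [hu, Nat.cast_sub hmc']
    push_cast
    ring
  have hwu : w ≤ u / UU := by
    rw [le_div_iff₀ hU, eu]
    linarith
  have hwl : (P.l / UU : ℝ) ≤ w := by
    rw [div_le_iff₀ hU]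
    cases hb : Nat.ble P.l (nat_lit 1125899906842624) with
    | true =>
      have g1 : P.l ≤ 1125899906842624 := Nat.le_of_ble_eq_true hb
      have g2 : (P.l : ℝ) ≤ 1125899906842624 := by exact_mod_cast g1
      have g3 : (1125899906842624 : ℝ) = 4 * UU := by unfold UU; norm_num
      rw [g3] at g2
      nlinarith
    | false =>
      rw [hb] at b2
      have g1 : P.l ≤ P.m := Nat.le_of_ble_eq_true b2
      have g2 : (P.l : ℝ) ≤ P.m := by exact_mod_cast g1
      linarith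
  have hpos : P.be * u < P.al * 281474976710656 := Nat.le_of_ble_eq_true b9
  have hlu : P.l ≤ u := by
    have : (P.l / UU : ℝ) ≤ u / UU := hwl.trans hwu
    rw [div_le_div_iff_of_pos_right hU] at this
    exact_mod_cast this
  have hbl : P.be * P.l ≤ P.al * 281474976710656 :=
    (Nat.mul_le_mul_left _ hlu).trans hpos.le
  have q0 := qd_ok hbl b11
  have q1 := qd_ok hpos.le b12
  have hbe : (0 : ℝ) ≤ P.be / UU := by positivity
  have hconc := qd_conc hbe hwl hwu q0 q1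
  have hch : 0 < (P.al / UU : ℝ) - P.be / UU * w := by
    have g1 : ((P.be * u : ℕ) : ℝ) < ((P.al * 281474976710656 : ℕ) : ℝ) := by exact_mod_cast hpos
    rw [Nat.cast_mul, Nat.cast_mul, UU_nat] at g1
    have g2 : (P.be / UU : ℝ) * w ≤ P.be / UU * (u / UU) := mul_le_mul_of_nonneg_left hwu hbe
    have g3 : (P.be / UU : ℝ) * (u / UU) < P.al / UU := by
      have : (P.be / UU : ℝ) * (u / UU) = (P.be * u) / UU ^ 2 := by field_simp
      rw [this, div_lt_div_iff₀ (by positivity) hU]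
      nlinarith
    linarith
  have hinv := (TOK.inv hA hP hw b5).1
  have hrh := TRH_all hA hP hw hinv 5 b6
  have hC : TOK D lf t (((P.al / UU : ℝ) - P.be / UU * w : ℝ) : ℂ) (chM A P.al P.be W) := by
    refine tc ((cst_nat hA hP P.al).sub hA ((cst_nat hA hP P.be).mul hA hP hw)) ?_
    push_cast
    ring
  have hT : TOK D lf t ((rn w 6 - (P.t0 / UU : ℝ) * ((P.al / UU : ℝ) - P.be / UU * w) : ℝ) : ℂ)
      (subM A (rhM A W (invM A W) (nat_lit 5)).r (mulM A (cst A P.t0 (nat_lit 0))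
        (chM A P.al P.be W))) := by
    refine tc (hrh.r.sub hA ((cst_nat hA hP P.t0).mul hA hP hC)) ?_
    push_cast
    ring
  have hH : TOK D lf t ((h1 w 6 - (P.H / UU : ℝ) : ℝ) : ℂ)
      (subM A (rhM A W (invM A W) (nat_lit 5)).h (cst A P.H (nat_lit 0))) := by
    refine tc (hrh.h.sub hA (cst_nat hA hP P.H)) ?_
    push_cast
    ring
  have k1 := TOK_lb hA hP hT b7
  have k2 := TOK_lb hA hP hH b8
  rw [Complex.ofReal_re] at k1 k2
  have z : ((nat_lit 0 : ℕ) : ℝ) = 0 := Nat.cast_zero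
  rw [z] at k1 k2
  have k3 := nonneg_of_mul_nonneg_right k1 hU
  have k4 := nonneg_of_mul_nonneg_right k2 hU
  have hH1 : 1 ≤ P.H := Nat.le_of_ble_eq_true b4
  have hH2 : (0 : ℝ) < P.H := by exact_mod_cast hH1
  exact ⟨hch, hconc, by linarith, by positivity, by linarith⟩

end

end Pool.Agent.Helper51.FR
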