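import Pool.Agent.Helper51.FR.PtR
import Pool.Agent.Helper12.CW.GN4

/-!
MP_c75db0, Plan W, row M7 (part): the record `PtK` of the certificate with run-length types from a
Boolean test of the table of letters.
-/

set_option autoImplicit false
noncomputable section
namespace Pool.Agent.Helper51.FR

open Pool.Agent.Helper90.C75
open Pool.Agent.Helper90.KMT
open Pool.Agent.Helper90.KMO
open Pool.Agent.Helper86.C75 (Z)
open Pool.Agent.Helper86.CX (Cx andB)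
open Pool.Agent.Helper86.CT (Alg Mo er mk cst addM subM mulM conjM invM invOK)
open Pool.Agent.Helper62.SQM
open Pool.Agent.Helper62.TVM
open Pool.Agent.Helper62.LBM
open Pool.Agent.Helper12.NKT
open Pool.Agent.Helper6.MONO (Kp xA)
open Pool.Agent.Helper6.MONO.W2 (cX cY cZ cR cB vC cRd cBd wC cW ep phi ev nc ns nsd nW nWd Sy
  rn h1 h2 tt st_NR2 SyOk RPar nEx sqrt_chord)
open Pool.Agent.Helper6.MONO.W2.TY (PtK cpar cmx)

/-! ### stars: `ch = al w - be`; `P.H` = upper bound of `w` (at least `4` or the bound of the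
model) -/

/-- `(w - ch)² ≤ w` at `w = W / 2 ^ 48` -/
def sqW1 (X W : Nat) : Bool :=
  Nat.ble (Nat.mul X X) (Nat.mul W (nat_lit 22300745198530623141535718272648361505980416))
def sqW (al be W : Nat) : Bool :=
  sqW1 (Nat.add (Nat.mul (Nat.sub (nat_lit 281474976710656) al) W)
    (Nat.mul be (nat_lit 281474976710656))) W
/-- `ch` -/
def csM {α : Type} (A : Alg α) (al be : Nat) (W : Mo α) : Mo α :=
  subM A (mulM A (cst A al (nat_lit 0)) W) (cst A be (nat_lit 0))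
def sB1 {α : Type} (A : Alg α) (P : PtE) (C : Mo α) (x : RH α) : Bool :=
  cen2 A (nat_lit 0) P.c1 (subM A x.r (mulM A (cst A P.t0 (nat_lit 0)) C))
def sB2 {α : Type} (A : Alg α) (W I : Mo α) (P : PtE) (mx : Nat) : Bool :=
  andB (rhOK A W I mx) (sB1 A P (csM A P.al P.be W) (rhM A W I mx))
/-- the first break point; `mx` the largest class of the letter -/
def sB0 {α : Type} (A : Alg α) (W : Mo α) (P : PtE) (mx : Nat) : Bool :=
  Nat.rec (motive := fun _ => Bool) (Nat.beq P.t0 (nat_lit 0))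
    (fun n _ => andB (invOK A W) (sB2 A W (invM A W) P (Nat.succ n))) mx
def sB3 (P : PtE) : Bool :=
  andB (Nat.ble P.al (nat_lit 281474976710656))
    (andB (Nat.ble (Nat.succ (Nat.mul P.be (nat_lit 281474976710656))) (Nat.mul P.al P.l))
      (andB (sqW P.al P.be P.l) (sqW P.al P.be P.H)))
/-- THE TEST OF A STAR -/
def ptS {α : Type} (A : Alg α) (W : Mo α) (P : PtE) (mx : Nat) : Bool :=
  andB (cen2 A P.m P.c W) (andB (Nat.ble P.l P.m)
    (andB (orB (Nat.ble (nat_lit 1125899906842624) P.H)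
      (Nat.ble (Nat.sub (Nat.add P.c P.c) P.m) P.H)) (andB (sB3 P) (sB0 A W P mx))))

/-- test of the letter with the code `c`: `W` = model of `nW`, `n` pieces, `mx` largest class -/
def leK {α : Type} (A : Alg α) (W : Nat → Mo α) (tb : Nat → LE) (n mx : Nat → Nat) (c : Nat) :
    Bool :=
  cond (Nat.beq (Nat.mod (Nat.div c (nat_lit 2)) (nat_lit 2)) (nat_lit 0)) true
    (andB (andB (Nat.ble ((tb c).tau.getD 0 0) (tb c).e.t0)
        (Nat.ble (nat_lit 281474976710656) ((tb c).tau.getD (n c) 0)))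
      (cond (Nat.beq (Nat.div c (nat_lit 2)) (nat_lit 1)) (ptS A (W c) (tb c).e (mx c))
        (ptB A (W c) (tb c).e)))

/-- THE REAL PARAMETERS: `w` = the products `nW` at the point -/
def RTK (tb : ℕ → LE) (w : Sy → ℝ) (bc : ℕ → ℕ → Prop) : RPar where
  τ g i := (((tb (Pool.Agent.Helper6.MONO.W2.TY.sc g)).tau.getD i 0 : ℕ) : ℝ) / UU
  ch g := if g.2 = 1 then ((tb (Pool.Agent.Helper6.MONO.W2.TY.sc g)).e.al / UU : ℝ) * w g -
      (tb (Pool.Agent.Helper6.MONO.W2.TY.sc g)).e.be / UU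
    else ((tb (Pool.Agent.Helper6.MONO.W2.TY.sc g)).e.al / UU : ℝ) -
      (tb (Pool.Agent.Helper6.MONO.W2.TY.sc g)).e.be / UU * w g
  H g := ((tb (Pool.Agent.Helper6.MONO.W2.TY.sc g)).e.H : ℝ) / UU
  rr := 93824992236886 / UU
  bc := bc

theorem sqW_ok {al be W : ℕ} (ha : al ≤ 281474976710656) (h : sqW al be W = true) :
    ((1 - (al / UU : ℝ)) * (W / UU) + be / UU) ^ 2 ≤ (W / UU : ℝ) := by
  have hU := UU_pos
  have h1 : ((281474976710656 - al) * W + be * 281474976710656) *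
      ((281474976710656 - al) * W + be * 281474976710656) ≤ W * 281474976710656 ^ 3 :=
    Nat.le_of_ble_eq_true h
  have h2 : ((((281474976710656 - al) * W + be * 281474976710656) *
      ((281474976710656 - al) * W + be * 281474976710656) : ℕ) : ℝ) ≤
      ((W * 281474976710656 ^ 3 : ℕ) : ℝ) := by exact_mod_cast h1
  have e : ((281474976710656 - al : ℕ) : ℝ) = UU - al := by rw [Nat.cast_sub ha, UU_nat]
  rw [Nat.cast_mul, Nat.cast_add, Nat.cast_mul, Nat.cast_mul, Nat.cast_mul, Nat.cast_pow, e,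
    UU_nat] at h2
  have h3 : ((1 - (al / UU : ℝ)) * (W / UU) + be / UU) ^ 2 =
      ((UU - al) * W + be * UU) * ((UU - al) * W + be * UU) / UU ^ 4 := by
    field_simp
  have h4 : (W / UU : ℝ) = W * UU ^ 3 / UU ^ 4 := by field_simp
  rw [h3, h4]
  exact div_le_div_of_nonneg_right h2 (by positivity)

section

variable {α : Type} {D : ℕ} {lf : α → Vt D → ℂ} {A : Alg α} {t : ℕ → ℝ}

/-- THE FACTS ABOUT A STAR -/
theorem ps_ok (hA : AOK D lf A) (hP : PT D t) {w : ℝ} {W : Mo α} (hw : TOK D lf t (w : ℂ) W)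
    (h4 : w ≤ 4) {P : PtE} {mx : ℕ} (h : ptS A W P mx = true) :
    0 < (P.al / UU : ℝ) * w - P.be / UU ∧
    (P.t0 / UU : ℝ) * ((P.al / UU : ℝ) * w - P.be / UU) ≤ rn w (mx + 1) ∧
    w - Real.sqrt w ≤ (P.al / UU : ℝ) * w - P.be / UU := by
  have hU := UU_pos
  obtain ⟨b1, h⟩ := andB_t' h
  obtain ⟨b2, h⟩ := andB_t' h
  obtain ⟨b3, h⟩ := andB_t' h
  obtain ⟨b4, b5⟩ := andB_t' h
  obtain ⟨b6, h⟩ := andB_t' b4
  obtain ⟨b7, h⟩ := andB_t' h
  obtain ⟨b8, b9⟩ := andB_t' h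
  have lb := TOK_lb hA hP hw b1
  have ub := TOK_ub hA hP hw b1
  rw [Complex.ofReal_re] at lb ub
  have hmc : (P.m : ℝ) ≤ 2 * P.c := by linarith
  have hmc' : P.m ≤ P.c + P.c := by
    have : (P.m : ℝ) ≤ ((P.c + P.c : ℕ) : ℝ) := by push_cast; linarith
    exact_mod_cast this
  have hwl : (P.l / UU : ℝ) ≤ w := by
    rw [div_le_iff₀ hU]
    have g1 : P.l ≤ P.m := Nat.le_of_ble_eq_true b2
    have g2 : (P.l : ℝ) ≤ P.m := by exact_mod_cast g1
    linarith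
  have hwu : w ≤ P.H / UU := by
    rw [le_div_iff₀ hU]
    cases hb : Nat.ble (nat_lit 1125899906842624) P.H with
    | true =>
      have g1 : 1125899906842624 ≤ P.H := Nat.le_of_ble_eq_true hb
      have g2 : (1125899906842624 : ℝ) ≤ P.H := by exact_mod_cast g1
      have g3 : (1125899906842624 : ℝ) = 4 * UU := by unfold UU; norm_num
      rw [g3] at g2
      nlinarith
    | false =>
      rw [hb] at b3
      have g1 : P.c + P.c - P.m ≤ P.H := Nat.le_of_ble_eq_true b3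
      have g2 : ((P.c + P.c - P.m : ℕ) : ℝ) ≤ P.H := by exact_mod_cast g1
      rw [Nat.cast_sub hmc'] at g2
      push_cast at g2
      linarith
  have hal : P.al ≤ 281474976710656 := Nat.le_of_ble_eq_true b6
  have q0 := sqW_ok hal b8
  have q1 := sqW_ok hal b9
  have hc := sqrt_chord (by positivity) hwl hwu q0 q1
  have hpos : P.be * 281474976710656 < P.al * P.l := Nat.le_of_ble_eq_true b7
  have hch : 0 < (P.al / UU : ℝ) * w - P.be / UU := by
    have g1 : ((P.be * 281474976710656 : ℕ) : ℝ) < ((P.al * P.l : ℕ) : ℝ) := by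
      exact_mod_cast hpos
    rw [Nat.cast_mul, Nat.cast_mul, UU_nat] at g1
    have g2 : (P.al / UU : ℝ) * (P.l / UU) ≤ P.al / UU * w :=
      mul_le_mul_of_nonneg_left hwl (by positivity)
    have g3 : (P.be / UU : ℝ) < P.al / UU * (P.l / UU) := by
      have : (P.al / UU : ℝ) * (P.l / UU) = (P.al * P.l) / UU ^ 2 := by field_simp
      rw [this, div_lt_div_iff₀ hU (by positivity)]
      nlinarith
    linarith
  refine ⟨hch, ?_, by linarith⟩
  cases mx with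
  | zero =>
    have e : P.t0 = 0 := Nat.eq_of_beq_eq_true b5
    rw [e]
    show ((0 : ℕ) : ℝ) / UU * _ ≤ (0 : ℝ)
    rw [Nat.cast_zero, zero_div, zero_mul]
  | succ n =>
    obtain ⟨k1, k2⟩ := andB_t' b5
    obtain ⟨k3, k4⟩ := andB_t' k2
    have hinv := (TOK.inv hA hP hw k1).1
    have hrh := TRH_all hA hP hw hinv (Nat.succ n) k3
    have hC : TOK D lf t (((P.al / UU : ℝ) * w - P.be / UU : ℝ) : ℂ) (csM A P.al P.be W) := by
      refine tc (((cst_nat hA hP P.al).mul hA hP hw).sub hA (cst_nat hA hP P.be)) ?_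
      push_cast
      ring
    have hT : TOK D lf t ((rn w (n + 1 + 1) - (P.t0 / UU : ℝ) *
        ((P.al / UU : ℝ) * w - P.be / UU) : ℝ) : ℂ)
        (subM A (rhM A W (invM A W) (Nat.succ n)).r (mulM A (cst A P.t0 (nat_lit 0))
          (csM A P.al P.be W))) := by
      refine tc (hrh.r.sub hA ((cst_nat hA hP P.t0).mul hA hP hC)) ?_
      push_cast
      ring
    have k5 := TOK_lb hA hP hT k4
    rw [Complex.ofReal_re] at k5
    have z : ((nat_lit 0 : ℕ) : ℝ) = 0 := Nat.cast_zero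
    rw [z] at k5
    have k6 := nonneg_of_mul_nonneg_right k5 hU
    linarith

/-- **THE RECORD PtK FROM THE TEST** -/
theorem PtK_of (hA : AOK D lf A) (hP : PT D t) {γ δ ε : Type} {Cd : CovD γ δ ε}
    {v : Fin 3 → ℂ} {tb : ℕ → LE} {W : ℕ → Mo α} {bc : ℕ → ℕ → Prop} (hp : 3 ≤ Cd.p)
    (hw : ∀ g : Sy, SyOk Cd.p g → g.2 % 2 = 1 →
      TOK D lf t ((nW (phi Cd.p) v g : ℝ) : ℂ) (W (Pool.Agent.Helper6.MONO.W2.TY.sc g)))
    (h1' : ∀ a : Bool, ‖nc (phi Cd.p) v a 1‖ ≤ 2)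
    (h2 : ∀ g : Sy, SyOk Cd.p g → g.2 % 2 = 1 → 3 ≤ g.2 → 2 ≤ ‖nc (phi Cd.p) v g.1 g.2‖)
    (h : allC (leK A W tb (nPc Cd.le) (mxC Cd.mx)) (2 * Cd.p - 1) = true) (hnx : Cd.nx = [])
    (hq0 : ∀ c : ℕ, nQe Cd.le c = 0)
    (hb : Cd.gb = true → ∀ m, Cd.nB < m → ∃ i < Cd.NB, bc i m) :
    PtK Cd v (RTK tb (nW (phi Cd.p) v) bc) := by
  have hU := UU_pos
  have e5 : ∀ g : Sy, Pool.Agent.Helper6.MONO.W2.TY.cnx Cd g = nEx := fun g => by
    show nxC Cd.nx (Pool.Agent.Helper6.MONO.W2.TY.sc g) = 5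
    rw [hnx]
    rfl
  have key : ∀ g : Sy, SyOk Cd.p g → g.2 % 2 = 1 →
      (tb (Pool.Agent.Helper6.MONO.W2.TY.sc g)).tau.getD 0 0 ≤
        (tb (Pool.Agent.Helper6.MONO.W2.TY.sc g)).e.t0 ∧
      281474976710656 ≤ (tb (Pool.Agent.Helper6.MONO.W2.TY.sc g)).tau.getD
        (nPc Cd.le (Pool.Agent.Helper6.MONO.W2.TY.sc g)) 0 ∧
      cond (Nat.beq g.2 1) (ptS A (W (Pool.Agent.Helper6.MONO.W2.TY.sc g))
          (tb (Pool.Agent.Helper6.MONO.W2.TY.sc g)).e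
          (mxC Cd.mx (Pool.Agent.Helper6.MONO.W2.TY.sc g)))
        (ptB A (W (Pool.Agent.Helper6.MONO.W2.TY.sc g))
          (tb (Pool.Agent.Helper6.MONO.W2.TY.sc g)).e) = true := by
    intro g hg ho
    obtain ⟨k1, k2⟩ := Pool.Agent.Helper6.MONO.W2.TY.sc_b hg
    have h3 := Pool.Agent.Helper6.MONO.W2.TY.allC_sound h
      (Pool.Agent.Helper6.MONO.W2.TY.sc g) k1 (by omega)
    have dv : Nat.div (Pool.Agent.Helper6.MONO.W2.TY.sc g) 2 = g.2 :=
      Pool.Agent.Helper6.MONO.W2.TY.sc_div g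
    unfold leK at h3
    rw [dv] at h3
    have e1 : Nat.beq (Nat.mod g.2 2) 0 = false := by
      have : Nat.mod g.2 2 = 1 := ho
      rw [this]
      rfl
    rw [e1] at h3
    obtain ⟨b1, b2⟩ := andB_t' h3
    obtain ⟨b3, b4⟩ := andB_t' b1
    exact ⟨Nat.le_of_ble_eq_true b3, Nat.le_of_ble_eq_true b4, b2⟩
  have big : ∀ m : ℕ, 281474976710656 ≤ m → (1 : ℝ) ≤ (m : ℝ) / UU := by
    intro m hm
    rw [le_div_iff₀ hU, one_mul, ← UU_nat]
    exact_mod_cast hm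
  have ok1 : ∀ a : Bool, SyOk Cd.p (a, 1) := fun a =>
    ⟨le_rfl, by show 1 ≤ Cd.p; omega, fun _ => by show 1 < Cd.p; omega⟩
  have eW : ∀ g : Sy, nW (phi Cd.p) v g = ‖nc (phi Cd.p) v g.1 g.2‖ ^ 2 := fun g => rfl
  have four : ∀ g : Sy, SyOk Cd.p g → g.2 % 2 = 1 → 3 ≤ g.2 → 4 ≤ nW (phi Cd.p) v g := by
    intro g hg ho hk
    have h3 := h2 g hg ho hk
    rw [eW]
    nlinarith
  have sta : ∀ a : Bool, 0 < ((tb (Pool.Agent.Helper6.MONO.W2.TY.sc (a, 1))).e.al / UU : ℝ) *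
        nW (phi Cd.p) v (a, 1) - (tb (Pool.Agent.Helper6.MONO.W2.TY.sc (a, 1))).e.be / UU ∧
      ((tb (Pool.Agent.Helper6.MONO.W2.TY.sc (a, 1))).e.t0 / UU : ℝ) *
        (((tb (Pool.Agent.Helper6.MONO.W2.TY.sc (a, 1))).e.al / UU : ℝ) *
        nW (phi Cd.p) v (a, 1) - (tb (Pool.Agent.Helper6.MONO.W2.TY.sc (a, 1))).e.be / UU) ≤
        rn (nW (phi Cd.p) v (a, 1)) (mxC Cd.mx (Pool.Agent.Helper6.MONO.W2.TY.sc (a, 1)) + 1) ∧
      nW (phi Cd.p) v (a, 1) - Real.sqrt (nW (phi Cd.p) v (a, 1)) ≤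
        ((tb (Pool.Agent.Helper6.MONO.W2.TY.sc (a, 1))).e.al / UU : ℝ) *
        nW (phi Cd.p) v (a, 1) - (tb (Pool.Agent.Helper6.MONO.W2.TY.sc (a, 1))).e.be / UU := by
    intro a
    have h3 := (key (a, 1) (ok1 a) rfl).2.2
    refine ps_ok hA hP (hw (a, 1) (ok1 a) rfl) ?_ h3
    rw [eW]
    have := h1' a
    have h5 := norm_nonneg (nc (phi Cd.p) v a 1)
    nlinarith
  have fct : ∀ g : Sy, SyOk Cd.p g → g.2 % 2 = 1 → 3 ≤ g.2 → _ :=
    fun g hg ho hk => pt_ok hA hP (hw g hg ho) (four g hg ho hk)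
      (P := (tb (Pool.Agent.Helper6.MONO.W2.TY.sc g)).e) (by
        have h3 := (key g hg ho).2.2
        have e2 : Nat.beq g.2 1 = false := by
          rw [Bool.eq_false_iff]
          intro h4
          have := Nat.eq_of_beq_eq_true h4
          omega
        rw [e2] at h3
        exact h3)
  have ech : ∀ g : Sy, 3 ≤ g.2 → (RTK tb (nW (phi Cd.p) v) bc).ch g =
      ((tb (Pool.Agent.Helper6.MONO.W2.TY.sc g)).e.al / UU : ℝ) -
        (tb (Pool.Agent.Helper6.MONO.W2.TY.sc g)).e.be / UU * nW (phi Cd.p) v g := by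
    intro g hk
    exact if_neg (by omega)
  have ech1 : ∀ a : Bool, (RTK tb (nW (phi Cd.p) v) bc).ch (a, 1) =
      ((tb (Pool.Agent.Helper6.MONO.W2.TY.sc (a, 1))).e.al / UU : ℝ) *
        nW (phi Cd.p) v (a, 1) - (tb (Pool.Agent.Helper6.MONO.W2.TY.sc (a, 1))).e.be / UU := by
    intro a
    unfold RTK
    simp only [if_true]
  have e6 : ∀ g : Sy, Pool.Agent.Helper6.MONO.W2.TY.coi Cd g = 0 := fun g => by
    show oQc Cd.le (Pool.Agent.Helper6.MONO.W2.TY.sc g) = 0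
    unfold oQc
    rw [hq0]
    rfl
  have e7 : ∀ g : Sy, Pool.Agent.Helper6.MONO.W2.TY.coi Cd g +
      Pool.Agent.Helper6.MONO.W2.TY.cqi Cd g = (cpar Cd).N g := fun g => by
    rw [e6, Nat.zero_add]
    show nQc Cd.le (Pool.Agent.Helper6.MONO.W2.TY.sc g) = nPc Cd.le _
    unfold nQc
    rw [hq0]
    rfl
  have a1 : ∀ a : Bool, (RTK tb (nW (phi Cd.p) v) bc).τ (a, 1) 0 *
      (RTK tb (nW (phi Cd.p) v) bc).ch (a, 1) ≤ rn (nW (phi Cd.p) v (a, 1)) (cmx Cd (a, 1) + 1) := by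
    intro a
    rw [ech1]
    refine le_trans (mul_le_mul_of_nonneg_right ?_ (sta a).1.le) (sta a).2.1
    show (((tb (Pool.Agent.Helper6.MONO.W2.TY.sc (a, 1))).tau.getD 0 0 : ℕ) : ℝ) / UU ≤
      ((tb (Pool.Agent.Helper6.MONO.W2.TY.sc (a, 1))).e.t0 : ℝ) / UU
    exact div_le_div_of_nonneg_right (by exact_mod_cast (key (a, 1) (ok1 a) rfl).1) hU.le
  have a2 : ∀ a : Bool, nW (phi Cd.p) v (a, 1) - ‖nc (phi Cd.p) v a 1‖ ≤
      (RTK tb (nW (phi Cd.p) v) bc).τ (a, 1) ((cpar Cd).N (a, 1)) *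
        (RTK tb (nW (phi Cd.p) v) bc).ch (a, 1) := by
    intro a
    rw [ech1]
    have h3 := (sta a).2.2
    have e3 : Real.sqrt (nW (phi Cd.p) v (a, 1)) = ‖nc (phi Cd.p) v a 1‖ := by
      rw [eW]
      exact Real.sqrt_sq (norm_nonneg _)
    rw [e3] at h3
    refine h3.trans ?_
    have h5 := big _ (key (a, 1) (ok1 a) rfl).2.1
    have h6 := mul_le_mul_of_nonneg_right h5 (sta a).1.le
    rw [one_mul] at h6
    exact h6
  have a3 : ∀ g : Sy, SyOk Cd.p g → g.2 % 2 = 1 → 3 ≤ g.2 →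
      (RTK tb (nW (phi Cd.p) v) bc).τ g 0 * (RTK tb (nW (phi Cd.p) v) bc).ch g ≤
        rn (nW (phi Cd.p) v g) (Pool.Agent.Helper6.MONO.W2.TY.cnx Cd g + 1) := by
    intro g hg ho hk
    rw [ech g hk, e5]
    obtain ⟨f1, _, f3, _⟩ := fct g hg ho hk
    refine le_trans (mul_le_mul_of_nonneg_right ?_ f1.le) f3
    show (((tb (Pool.Agent.Helper6.MONO.W2.TY.sc g)).tau.getD 0 0 : ℕ) : ℝ) / UU ≤
      ((tb (Pool.Agent.Helper6.MONO.W2.TY.sc g)).e.t0 : ℝ) / UU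
    exact div_le_div_of_nonneg_right (by exact_mod_cast (key g hg ho).1) hU.le
  refine ⟨fun a => ?_, fun a => ⟨a1 a, a2 a⟩, fun a => by rw [e7, e6]; exact ⟨a1 a, a2 a⟩,
    fun g hg ho hk => ?_, fun g hg ho hk => ⟨a3 g hg ho hk, big _ (key g hg ho).2.1⟩,
    fun g hg ho hk => by rw [e7, e6]; exact ⟨a3 g hg ho hk, big _ (key g hg ho).2.1⟩,
    fun g hg ho hk => ?_, fun g _ _ _ hz => ?_, rr_third, hb⟩
  · rw [ech1]
    exact (sta a).1
  · rw [ech g hk]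
    obtain ⟨f1, f2, _⟩ := fct g hg ho hk
    exact ⟨f1, f2⟩
  · obtain ⟨_, _, _, f4, f5⟩ := fct g hg ho hk
    rw [e5]
    exact ⟨f4.le, f5⟩
  · have hz' : hzC Cd.nx (Pool.Agent.Helper6.MONO.W2.TY.sc g) = true := hz
    rw [hnx] at hz'
    exact absurd hz' (by simp [hzC])

/-- the record at the points of a window -/
theorem PtK_x (hA : AOK D lf A) (hP : PT D t) {γ δ ε : Type} {Cd : CovD γ δ ε} {q r : ℕ}
    (hp : 3 ≤ Cd.p) (hpq : Cd.p ≤ q) (hqr : q ≤ r) (hr4 : 4 ≤ r) {x : ℝ}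
    (hxA : xA Cd.p q r ≤ x) (hx2 : x < 2) {tb : ℕ → LE} {W : ℕ → Mo α} {bc : ℕ → ℕ → Prop}
    (hw : ∀ g : Sy, SyOk Cd.p g → g.2 % 2 = 1 →
      TOK D lf t ((nW (phi Cd.p) (vC Cd.p (cW Cd.p q r x) (Kp q ^ 2) (Kp r ^ 2)) g : ℝ) : ℂ)
        (W (Pool.Agent.Helper6.MONO.W2.TY.sc g)))
    (h : allC (leK A W tb (nPc Cd.le) (mxC Cd.mx)) (2 * Cd.p - 1) = true) (hnx : Cd.nx = [])
    (hq0 : ∀ c : ℕ, nQe Cd.le c = 0)
    (hb : Cd.gb = true → ∀ m, Cd.nB < m → ∃ i < Cd.NB, bc i m) :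
    PtK Cd (vC Cd.p (cW Cd.p q r x) (Kp q ^ 2) (Kp r ^ 2))
      (RTK tb (nW (phi Cd.p) (vC Cd.p (cW Cd.p q r x) (Kp q ^ 2) (Kp r ^ 2))) bc) := by
  obtain ⟨_, _, _, _, e1, e⟩ := Pool.Agent.Helper6.MONO.W2.ptF_k hp hpq hqr hr4 hxA hx2
  refine PtK_of hA hP hp hw (fun a => ?_) (fun g hg ho hk => (e g hg ho hk).1) h hnx hq0 hb
  rw [(e1 a).1]
  have e2 : Kp (Pool.Agent.Helper6.MONO.W2.mqr q r a) =
      2 * Real.cos (phi (Pool.Agent.Helper6.MONO.W2.mqr q r a)) := rfl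
  rw [e2]
  have := Real.cos_le_one (phi (Pool.Agent.Helper6.MONO.W2.mqr q r a))
  linarith

end

end Pool.Agent.Helper51.FR
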