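import Pool.Agent.Helper51.FR.Let
import Pool.Agent.Helper12.CW.NFC

/-!
MP_c75db0, Plan W, row M7 (part): the record `PtR` (facts about the families of the runs) from a
Boolean test of the table of letters.
-/

set_option autoImplicit false
noncomputable section
namespace Pool.Agent.Helper51.FR

open Pool.Agent.Helper90.C75
open Pool.Agent.Helper90.KMT
open Pool.Agent.Helper90.KMO
open Pool.Agent.Helper86.C75 (Z)
open Pool.Agent.Helper86.CX (Cx andB)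
open Pool.Agent.Helper86.CT (Alg Mo er mk cst addM subM mulM conjM invM invOK)
open Pool.Agent.Helper62.SQM
open Pool.Agent.Helper62.TVM
open Pool.Agent.Helper62.LBM
open Pool.Agent.Helper12.NK
open Pool.Agent.Helper6.MONO (Kp)
open Pool.Agent.Helper6.MONO.W2 (cX cY cZ cR cB vC cRd cBd wC cW ep phi ev nc ns nsd nW nWd Sy
  rn h1 h2 tt st_NR2 SyOk sc cs sc_cs cs_sc allC_sound NPar RPar PtR cpar nEx)

/-- entry of the table of letters: family (`k ≥ 3`), break points of the pieces -/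
structure LE where
  e : PtE
  tau : List Nat

/-- test of the letter with code `c`: `W` = model of `nW`, `n` pieces -/
def leB {α : Type} (A : Alg α) (W : Nat → Mo α) (tb : Nat → LE) (n : Nat → Nat) (c : Nat) :
    Bool :=
  cond (Nat.beq (Nat.mod (Nat.div c (nat_lit 2)) (nat_lit 2)) (nat_lit 0)) true
    (cond (Nat.beq (Nat.div c (nat_lit 2)) (nat_lit 1))
      (andB (Nat.beq ((tb c).tau.getD 0 0) (nat_lit 0))
        (Nat.ble (nat_lit 281474976710656) ((tb c).tau.getD (n c) 0)))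
      (andB (ptB A (W c) (tb c).e) (andB (Nat.ble ((tb c).tau.getD 0 0) (tb c).e.t0)
        (Nat.ble (nat_lit 281474976710656) ((tb c).tau.getD (n c) 0)))))

/-- THE REAL PARAMETERS: `w` = the products `nW` at the point -/
def RTab (tb : ℕ → LE) (w : Sy → ℝ) (bc : ℕ → ℕ → Prop) : RPar where
  τ g i := (((tb (sc g)).tau.getD i 0 : ℕ) : ℝ) / UU
  ch g := if g.2 = 1 then w g / 2 else ((tb (sc g)).e.al / UU : ℝ) - (tb (sc g)).e.be / UU * w g
  H g := ((tb (sc g)).e.H : ℝ) / UU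
  rr := 93824992236886 / UU
  bc := bc

theorem rr_third : (1 : ℝ) / 3 ≤ 93824992236886 / UU := by
  unfold UU
  norm_num

section

variable {α : Type} {D : ℕ} {lf : α → Vt D → ℂ} {A : Alg α} {t : ℕ → ℝ}

/-- **THE RECORD PtR FROM THE TEST** -/
theorem PtR_of (hA : AOK D lf A) (hP : PT D t) {p : ℕ} {v : Fin 3 → ℂ} {N : NPar}
    {tb : ℕ → LE} {n : ℕ → ℕ} {W : ℕ → Mo α} {bc : ℕ → ℕ → Prop} (hp : 3 ≤ p)
    (hw : ∀ g : Sy, SyOk p g → g.2 % 2 = 1 → 3 ≤ g.2 →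
      TOK D lf t ((nW (phi p) v g : ℝ) : ℂ) (W (sc g)))
    (h2 : ∀ g : Sy, SyOk p g → g.2 % 2 = 1 → 3 ≤ g.2 → 2 ≤ ‖nc (phi p) v g.1 g.2‖)
    (hN : ∀ g, N.N g = n (sc g)) (h : allC (leB A W tb n) (2 * p - 1) = true)
    (hb : N.gb = true → ∀ m, N.nB < m → ∃ i < N.NB, bc i m) :
    PtR p v N (RTab tb (nW (phi p) v) bc) := by
  have hU := UU_pos
  have key : ∀ g : Sy, SyOk p g → leB A W tb n (sc g) = true := by
    intro g hg
    obtain ⟨k1, k2⟩ := hg.code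
    exact allC_sound h (sc g) k1 (by omega)
  have dv : ∀ g : Sy, Nat.div (sc g) 2 = g.2 := by
    intro g
    obtain ⟨a, k⟩ := g
    show (2 * k + a.toNat) / 2 = k
    cases a
    · show (2 * k + 0) / 2 = k
      omega
    · show (2 * k + 1) / 2 = k
      omega
  have big : ∀ m : ℕ, 281474976710656 ≤ m → (1 : ℝ) ≤ (m : ℝ) / UU := by
    intro m hm
    rw [le_div_iff₀ hU, one_mul, ← UU_nat]
    exact_mod_cast hm
  -- k = 1
  have one : ∀ a : Bool, (tb (sc (a, 1))).tau.getD 0 0 = 0 ∧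
      281474976710656 ≤ (tb (sc (a, 1))).tau.getD (n (sc (a, 1))) 0 := by
    intro a
    have hg : SyOk p (a, 1) := ⟨le_rfl, by show 1 ≤ p; omega, fun _ => by show 1 < p; omega⟩
    have h1 := key _ hg
    unfold leB at h1
    rw [dv (a, 1)] at h1
    obtain ⟨b1, b2⟩ := andB_t' h1
    exact ⟨Nat.eq_of_beq_eq_true b1, Nat.le_of_ble_eq_true b2⟩
  -- k ≥ 3
  have three : ∀ g : Sy, SyOk p g → g.2 % 2 = 1 → 3 ≤ g.2 →
      ptB A (W (sc g)) (tb (sc g)).e = true ∧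
      (tb (sc g)).tau.getD 0 0 ≤ (tb (sc g)).e.t0 ∧
      281474976710656 ≤ (tb (sc g)).tau.getD (n (sc g)) 0 := by
    intro g hg ho hk
    have h1 := key _ hg
    unfold leB at h1
    rw [dv g] at h1
    have e1 : Nat.beq (Nat.mod g.2 2) 0 = false := by
      have : Nat.mod g.2 2 = 1 := ho
      rw [this]
      rfl
    have e2 : Nat.beq g.2 1 = false := by
      rw [Bool.eq_false_iff]
      intro h3
      have := Nat.eq_of_beq_eq_true h3
      omega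
    rw [e1, e2] at h1
    obtain ⟨b1, h1⟩ := andB_t' h1
    obtain ⟨b2, b3⟩ := andB_t' h1
    exact ⟨b1, Nat.le_of_ble_eq_true b2, Nat.le_of_ble_eq_true b3⟩
  have four : ∀ g : Sy, SyOk p g → g.2 % 2 = 1 → 3 ≤ g.2 → 4 ≤ nW (phi p) v g := by
    intro g hg ho hk
    have h3 := h2 g hg ho hk
    have e : nW (phi p) v g = ‖nc (phi p) v g.1 g.2‖ ^ 2 := rfl
    rw [e]
    nlinarith
  have fct := fun g hg ho hk => pt_ok hA hP (hw g hg ho hk) (four g hg ho hk) (three g hg ho hk).1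
  have ech : ∀ g : Sy, 3 ≤ g.2 → (RTab tb (nW (phi p) v) bc).ch g =
      ((tb (sc g)).e.al / UU : ℝ) - (tb (sc g)).e.be / UU * nW (phi p) v g := by
    intro g hk
    exact if_neg (by omega)
  have ech1 : ∀ a : Bool, (RTab tb (nW (phi p) v) bc).ch (a, 1) = nW (phi p) v (a, 1) / 2 :=
    fun a => by
      unfold RTab
      simp only [if_true]
  refine ⟨ech1, fun a => ⟨?_, ?_⟩, fun g hg ho hk => ?_, fun g hg ho hk => ⟨?_, ?_⟩,
    fun g hg ho hk => ?_, rr_third, hb⟩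
  · show (((tb (sc (a, 1))).tau.getD 0 0 : ℕ) : ℝ) / UU ≤ 0
    rw [(one a).1]
    simp
  · show (1 : ℝ) ≤ (((tb (sc (a, 1))).tau.getD (N.N (a, 1)) 0 : ℕ) : ℝ) / UU
    rw [hN]
    exact big _ (one a).2
  · rw [ech g hk]
    obtain ⟨f1, f2, _⟩ := fct g hg ho hk
    exact ⟨f1, f2⟩
  · rw [ech g hk]
    obtain ⟨f1, _, f3, _⟩ := fct g hg ho hk
    refine le_trans (mul_le_mul_of_nonneg_right ?_ f1.le) f3
    show (((tb (sc g)).tau.getD 0 0 : ℕ) : ℝ) / UU ≤ ((tb (sc g)).e.t0 : ℝ) / UU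
    exact div_le_div_of_nonneg_right (by exact_mod_cast (three g hg ho hk).2.1) hU.le
  · show (1 : ℝ) ≤ (((tb (sc g)).tau.getD (N.N g) 0 : ℕ) : ℝ) / UU
    rw [hN]
    exact big _ (three g hg ho hk).2.2
  · obtain ⟨_, _, _, f4, f5⟩ := fct g hg ho hk
    exact ⟨f4, f5⟩

/-- the tests of `Win`: at the points of a window `‖nc‖ ≥ 2` -/
theorem PtR_x (hA : AOK D lf A) (hP : PT D t) {p q r : ℕ} (hp : 3 ≤ p) (hpq : p ≤ q)
    (hqr : q ≤ r) (hr4 : 4 ≤ r) {x : ℝ} (hxA : Pool.Agent.Helper6.MONO.xA p q r ≤ x) (hx2 : x < 2)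
    {N : NPar} {tb : ℕ → LE} {n : ℕ → ℕ} {W : ℕ → Mo α} {bc : ℕ → ℕ → Prop}
    (hw : ∀ g : Sy, SyOk p g → g.2 % 2 = 1 → 3 ≤ g.2 →
      TOK D lf t ((nW (phi p) (vC p (cW p q r x) (Kp q ^ 2) (Kp r ^ 2)) g : ℝ) : ℂ) (W (sc g)))
    (hN : ∀ g, N.N g = n (sc g)) (h : allC (leB A W tb n) (2 * p - 1) = true)
    (hb : N.gb = true → ∀ m, N.nB < m → ∃ i < N.NB, bc i m) :
    PtR p (vC p (cW p q r x) (Kp q ^ 2) (Kp r ^ 2)) N
      (RTab tb (nW (phi p) (vC p (cW p q r x) (Kp q ^ 2) (Kp r ^ 2))) bc) := by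
  obtain ⟨_, _, _, _, _, e⟩ := Pool.Agent.Helper6.MONO.W2.ptF_k hp hpq hqr hr4 hxA hx2
  exact PtR_of hA hP hp hw (fun g hg ho hk => (e g hg ho hk).1) hN h hb

end

end Pool.Agent.Helper51.FR
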