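import Pool.Agent.Helper51.FR.M7I

/-!
MP_c75db0, Plan W, row M7 (B2): start and end of a cell.
-/

set_option autoImplicit false
noncomputable section
namespace Pool.Agent.Helper21.SW

open Matrix
open Pool.Agent.Helper90.C75 (Vt)
open Pool.Agent.Helper90.KMT
open Pool.Agent.Helper90.KMO (UU UU_pos UUc_ne cz zv zv_p zv_add zv_sub zv_mul)
open Pool.Agent.Helper86.C75 (Z)
open Pool.Agent.Helper86.CX (Cx andB)
open Pool.Agent.Helper86.CT (N3 Alg Mo KM mk cst addM subM mulM conjM A3 A4)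
open Pool.Agent.Helper17.K9 (V9)
open Pool.Agent.Helper62.TVM
open Pool.Agent.Helper12.NKT (CovD Fm dfF allC allF mxC siC)
open Pool.Agent.Helper51.FR (andB_t' inc_tr vbT cbd doU_tr doY_tr st_tr)
open Pool.Agent.Helper82.TST (HK Lw3 Lw3_ok Lv3 Lv3_ok geT doT vaT cuW uv TW_uv uv_null)
open Pool.Agent.Helper6.MONO (V3)
open Pool.Agent.Helper6.MONO.W2 (Mt NT NZ rfJ brJ hr J1 Sy syi SyOk)
open Pool.Agent.Helper6.MONO.W2.TY (PtS leF sc tc cmx siC_sc sc_b allC_sound)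
open Pool.Agent.Helper6.MONO.W2 (TyOk)

/-! ### the kernel side -/

/-- multipliers of the tests `doU` for the three start vectors and of `doY` -/
structure M4 where
  a : Mu
  b : Mu
  c : Mu
  d : Mu

/-- START AND END: three start vectors, final vector, the forms of the types (number, multipliers) -/
structure SE where
  U0 : C3
  U1 : C3
  U2 : C3
  y : C3
  d : List (Nat × M4)

/-- the square -/
def sqZ (x : Z) : Nat :=
  Z.rec (motive := fun _ => Nat) (fun n => Nat.mul n n) (fun n => Nat.mul n n) x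
/-- `|a|² + |b|² = |c|²` -/
def nulT (C : C3) : Bool :=
  Nat.beq (Nat.add (Nat.add (Nat.add (sqZ C.a.re) (sqZ C.a.im)) (sqZ C.b.re)) (sqZ C.b.im))
    (Nat.add (sqZ C.c.re) (sqZ C.c.im))

/-- exact complex numbers -/
def xm (a b : Cx) : Cx :=
  ⟨Z.sub (Z.mul a.re b.re) (Z.mul a.im b.im), Z.add (Z.mul a.re b.im) (Z.mul a.im b.re)⟩
def xa (a b : Cx) : Cx := ⟨Z.add a.re b.re, Z.add a.im b.im⟩
def xs (a b : Cx) : Cx := ⟨Z.sub a.re b.re, Z.sub a.im b.im⟩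
/-- determinant of the rows `X`, `Y`, `W` -/
def dt3 (X Y W : C3) : Cx :=
  xa (xs (xm X.a (xs (xm Y.b W.c) (xm Y.c W.b))) (xm X.b (xs (xm Y.a W.c) (xm Y.c W.a))))
    (xm X.c (xs (xm Y.a W.b) (xm Y.b W.a)))
def nz1 (x : Cx) : Bool := Nat.ble (nat_lit 1) (Nat.add (sqZ x.re) (sqZ x.im))
/-- the three vectors are independent -/
def indT (E : SE) : Bool := nz1 (dt3 E.U0 E.U1 E.U2)

section

variable {κ γ : Type}

/-- the tests for one form -/
def do4 (E : SE) (m : M4) (K : KM T3) : Bool :=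
  andB (doT A3 Lw3 m.a.l m.a.m (cstW A3 E.U0 (nat_lit 0)) K)
    (andB (doT A3 Lw3 m.b.l m.b.m (cstW A3 E.U1 (nat_lit 0)) K)
      (andB (doT A3 Lw3 m.c.l m.c.m (cstW A3 E.U2 (nat_lit 0)) K)
        (doT A3 Lw3 m.d.l m.d.m (cstW A3 E.y (nat_lit 0)) K)))
def doL (T : TK κ γ) (C : Cel κ) (E : SE) (l : List (Nat × M4)) : Bool :=
  List.rec (motive := fun _ => Bool) true
    (fun e _ b => andB (do4 E e.2 (T.km (C.fo e.1))) b) l
/-- the number is in the list -/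
def inL (l : List (Nat × M4)) (i : Nat) : Bool :=
  List.rec (motive := fun _ => Bool) false
    (fun e _ b => Pool.Agent.Helper51.FR.orB (Nat.beq e.1 i) b) l
/-- all types are tested -/
def cvT (C : Cel κ) (l : List (Nat × M4)) : Bool :=
  allC (fun c => allF (fun f => inL l (leF C.D (Nat.add c (Nat.mul (nat_lit 32) f))))
    (mxC C.D.mx c)) (2 * C.D.p - 1)
/-- one start vector -/
def vaU (C : Cel κ) (U : C3) (K : KM T3) : Bool :=
  andB (nulT U) (vaT A3 Lv3 K (cuW A3 C.f.v (cstW A3 U (nat_lit 0))))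
def seV (C : Cel κ) (E : SE) (K : KM T3) : Bool :=
  andB (vaU C E.U0 K) (andB (vaU C E.U1 K) (vaU C E.U2 K))
/-- THE TEST: `ca`, `ce` the codes of `a0` and of its inverse -/
def seB (T : TK κ γ) (C : Cel κ) (E : SE) (ca ce : Nat) : Bool :=
  andB (indT E) (andB (vbT C.f.v) (andB (cvT C E.d) (andB (seV C E (T.km (C.fo (leF C.D ca))))
    (andB (vaU C E.y (T.km (C.fo (leF C.D ce)))) (doL T C E E.d)))))

end

/-- the start vectors -/
def SE.U (E : SE) : Fin 3 → V3 := ![uv E.U0, uv E.U1, uv E.U2]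

/-! ### the real side -/

theorem sqZ_ok (x : Z) : ((sqZ x : ℕ) : ℤ) = zv x ^ 2 := by
  cases x with
  | p n =>
    show ((n * n : ℕ) : ℤ) = ((n : ℤ)) ^ 2
    push_cast
    ring
  | m n =>
    show ((n * n : ℕ) : ℤ) = (-(n : ℤ)) ^ 2
    push_cast
    ring

theorem nul_ok {C : C3} (h : nulT C = true) : hr J1 (uv C) = 0 := by
  refine uv_null ?_
  have h1 : sqZ C.a.re + sqZ C.a.im + sqZ C.b.re + sqZ C.b.im = sqZ C.c.re + sqZ C.c.im :=
    Nat.eq_of_beq_eq_true h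
  have h2 : ((sqZ C.a.re + sqZ C.a.im + sqZ C.b.re + sqZ C.b.im : ℕ) : ℤ) =
      ((sqZ C.c.re + sqZ C.c.im : ℕ) : ℤ) := by rw [h1]
  push_cast at h2
  rw [sqZ_ok, sqZ_ok, sqZ_ok, sqZ_ok, sqZ_ok, sqZ_ok] at h2
  exact h2

theorem cz_xm (a b : Cx) : cz (xm a b) = cz a * cz b := by
  apply Complex.ext
  · rw [Complex.mul_re]
    show ((zv (Z.sub (Z.mul a.re b.re) (Z.mul a.im b.im)) : ℤ) : ℝ) = _
    rw [zv_sub, zv_mul, zv_mul]
    push_cast
    rfl
  · rw [Complex.mul_im]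
    show ((zv (Z.add (Z.mul a.re b.im) (Z.mul a.im b.re)) : ℤ) : ℝ) = _
    rw [zv_add, zv_mul, zv_mul]
    push_cast
    rfl

theorem cz_xa (a b : Cx) : cz (xa a b) = cz a + cz b := by
  apply Complex.ext
  · rw [Complex.add_re]
    show ((zv (Z.add a.re b.re) : ℤ) : ℝ) = _
    rw [zv_add]
    push_cast
    rfl
  · rw [Complex.add_im]
    show ((zv (Z.add a.im b.im) : ℤ) : ℝ) = _
    rw [zv_add]
    push_cast
    rfl

theorem cz_xs (a b : Cx) : cz (xs a b) = cz a - cz b := by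
  apply Complex.ext
  · rw [Complex.sub_re]
    show ((zv (Z.sub a.re b.re) : ℤ) : ℝ) = _
    rw [zv_sub]
    push_cast
    rfl
  · rw [Complex.sub_im]
    show ((zv (Z.sub a.im b.im) : ℤ) : ℝ) = _
    rw [zv_sub]
    push_cast
    rfl

theorem ind_ok {E : SE} (h : indT E = true) : LinearIndependent ℂ E.U := by
  have h1 : 1 ≤ sqZ (dt3 E.U0 E.U1 E.U2).re + sqZ (dt3 E.U0 E.U1 E.U2).im :=
    Nat.le_of_ble_eq_true h
  have hd : cz (dt3 E.U0 E.U1 E.U2) ≠ 0 := by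
    intro h0
    have e1 : ((zv (dt3 E.U0 E.U1 E.U2).re : ℤ) : ℝ) = 0 := congrArg Complex.re h0
    have e2 : ((zv (dt3 E.U0 E.U1 E.U2).im : ℤ) : ℝ) = 0 := congrArg Complex.im h0
    have e3 : zv (dt3 E.U0 E.U1 E.U2).re = 0 := by exact_mod_cast e1
    have e4 : zv (dt3 E.U0 E.U1 E.U2).im = 0 := by exact_mod_cast e2
    have k1 := sqZ_ok (dt3 E.U0 E.U1 E.U2).re
    have k2 := sqZ_ok (dt3 E.U0 E.U1 E.U2).im
    rw [e3] at k1
    rw [e4] at k2
    have h2 : (1 : ℤ) ≤ ((sqZ (dt3 E.U0 E.U1 E.U2).re + sqZ (dt3 E.U0 E.U1 E.U2).im : ℕ) : ℤ) := by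
      exact_mod_cast h1
    push_cast at h2
    rw [k1, k2] at h2
    norm_num at h2
  have hU : (UU : ℂ) ≠ 0 := UUc_ne
  have key : (Matrix.of E.U).det ≠ 0 := by
    have e : (Matrix.of E.U).det = cz (dt3 E.U0 E.U1 E.U2) / UU ^ 3 := by
      rw [Matrix.det_fin_three]
      unfold dt3 SE.U
      simp only [cz_xa, cz_xs, cz_xm, Matrix.of_apply, Matrix.cons_val_zero,
        Matrix.cons_val_one, Matrix.cons_val]
      show cz E.U0.a / UU * (cz E.U1.b / UU) * (cz E.U2.c / UU) -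
        cz E.U0.a / UU * (cz E.U1.c / UU) * (cz E.U2.b / UU) -
        cz E.U0.b / UU * (cz E.U1.a / UU) * (cz E.U2.c / UU) +
        cz E.U0.b / UU * (cz E.U1.c / UU) * (cz E.U2.a / UU) +
        cz E.U0.c / UU * (cz E.U1.a / UU) * (cz E.U2.b / UU) -
        cz E.U0.c / UU * (cz E.U1.b / UU) * (cz E.U2.a / UU) = _
      field_simp
      ring
    rw [e]
    exact div_ne_zero hd (pow_ne_zero _ hU)
  exact Matrix.linearIndependent_rows_of_det_ne_zero key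

section

variable {κ γ : Type} {KV : κ → (ℕ → ℝ) → Mt} {T : TK κ γ} {C : Cel κ} {t : ℕ → ℝ}

theorem allF_ok {f : ℕ → Bool} : ∀ {n : ℕ}, allF f n = true → ∀ i ≤ n, f i = true := by
  intro n
  induction n with
  | zero =>
    intro h i hi
    have : i = 0 := by omega
    rw [this]
    exact h
  | succ n ih =>
    intro h i hi
    unfold allF at h
    rw [Bool.and_eq_true] at h
    rcases Nat.lt_or_ge n i with h1 | h1
    · have : i = n + 1 := by omega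
      rw [this]
      exact h.1
    · exact ih h.2 i h1

theorem inL_ok : ∀ {l : List (ℕ × M4)} {i : ℕ}, inL l i = true → ∃ m, (i, m) ∈ l := by
  intro l
  induction l with
  | nil => intro i h; exact absurd h (by show ¬ (false = true); simp)
  | cons a l ih =>
    intro i h
    have h' : Pool.Agent.Helper51.FR.orB (Nat.beq a.1 i) (inL l i) = true := h
    cases hb : Nat.beq a.1 i with
    | true =>
      have e : a.1 = i := Nat.eq_of_beq_eq_true hb
      refine ⟨a.2, ?_⟩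
      rw [← e]
      exact List.mem_cons_self
    | false =>
      rw [hb] at h'
      obtain ⟨m, hm⟩ := ih h'
      exact ⟨m, List.mem_cons_of_mem _ hm⟩

theorem doL_ok {E : SE} : ∀ {l : List (ℕ × M4)}, doL T C E l = true → ∀ e ∈ l,
    do4 E e.2 (T.km (C.fo e.1)) = true := by
  intro l
  induction l with
  | nil => intro _ e he; cases he
  | cons a l ih =>
    intro h e he
    obtain ⟨h1, h2⟩ := andB_t' h
    rcases List.mem_cons.1 he with rfl | he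
    · exact h1
    · exact ih h2 e he

theorem U_all {E : SE} {P : V3 → Prop} (h0 : P (uv E.U0)) (h1 : P (uv E.U1))
    (h2 : P (uv E.U2)) (i : Fin 3) : P (E.U i) := by
  fin_cases i
  · exact h0
  · exact h1
  · exact h2

theorem st_ok (hT : TKL KV T) (hP : PT 3 t) {v : V3} (h2 : brJ 1 v v = 2)
    (hv : TW 3 lf3 t v C.f.v) {U : C3} {i : ℕ} (h : vaU C U (T.km (C.fo i)) = true) :
    uv U ∈ NZ (cK v (KV (C.fo i) t)) := by
  obtain ⟨k1, k2⟩ := andB_t' h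
  exact st_tr a3 hP h2 hv (hT.km hP) (TW_uv a3 hP U) (nul_ok k1) Lv3_ok k2

theorem do4_ok (hT : TKL KV T) (hP : PT 3 t) {v : V3} (h2 : brJ 1 v v = 2)
    (hv : TW 3 lf3 t v C.f.v) (hb : vbT C.f.v = true) {E : SE} {m : M4} {i : ℕ}
    (h : do4 E m (T.km (C.fo i)) = true) (y : V3) (hy : y ∈ NZ (cK v (KV (C.fo i) t))) :
    (∀ j, ‖y‖ ≤ cbd * ‖brJ 1 ((rfJ 1 v).mulVec (E.U j)) y‖) ∧
      ‖y‖ ≤ cbd * ‖brJ 1 ((rfJ 1 v).mulVec y) (uv E.y)‖ := by
  obtain ⟨d0, h⟩ := andB_t' h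
  obtain ⟨d1, h⟩ := andB_t' h
  obtain ⟨d2, d3⟩ := andB_t' h
  have e0 := doU_tr a3 hP h2 hv hb (hT.km hP) (TW_uv a3 hP E.U0) Lw3_ok d0 y hy
  have e1 := doU_tr a3 hP h2 hv hb (hT.km hP) (TW_uv a3 hP E.U1) Lw3_ok d1 y hy
  have e2 := doU_tr a3 hP h2 hv hb (hT.km hP) (TW_uv a3 hP E.U2) Lw3_ok d2 y hy
  have e3 := doY_tr a3 hP h2 hv hb (hT.km hP) (TW_uv a3 hP E.y) Lw3_ok d3 y hy
  exact ⟨U_all (P := fun U => ‖y‖ ≤ cbd * ‖brJ 1 ((rfJ 1 v).mulVec U) y‖) e0 e1 e2, e3⟩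

/-- **START AND END AT A POINT** -/
theorem seB_ok (hT : TKL KV T) (hP : PT 3 t) {v : V3} (h2 : brJ 1 v v = 2)
    (hv : TW 3 lf3 t v C.f.v) {E : SE} {a0 : Sy} {ca ce : ℕ} (ha : sc a0 = ca)
    (he : sc (syi C.D.p a0) = ce) (h : seB T C E ca ce = true) :
    PtS C.D v (fun i => cK v (KV (C.fo i) t)) a0 E.U (uv E.y) cbd := by
  obtain ⟨_, h⟩ := andB_t' h
  obtain ⟨hb, h⟩ := andB_t' h
  obtain ⟨hc, h⟩ := andB_t' h
  obtain ⟨hs, h⟩ := andB_t' h
  obtain ⟨hy, hd⟩ := andB_t' h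
  have dt : ∀ b, TyOk C.D.p (cmx C.D) b →
      ∃ m : M4, do4 E m (T.km (C.fo (leF C.D (tc b)))) = true := by
    intro b hb'
    obtain ⟨k1, k2⟩ := sc_b hb'.1
    have h3 := allC_sound hc (sc b.1) k1 (by omega)
    have h4 := allF_ok h3 b.2 hb'.2
    have e : Nat.add (sc b.1) (Nat.mul 32 b.2) = tc b := rfl
    rw [e] at h4
    obtain ⟨m, hm⟩ := inL_ok h4
    exact ⟨m, doL_ok hd (leF C.D (tc b), m) hm⟩
  obtain ⟨s0, s12⟩ := andB_t' hs
  obtain ⟨s1, s2⟩ := andB_t' s12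
  have t0 := st_ok hT hP h2 hv s0
  have t1 := st_ok hT hP h2 hv s1
  have t2 := st_ok hT hP h2 hv s2
  have t3 := st_ok hT hP h2 hv hy
  have t4 : ∀ b, TyOk C.D.p (cmx C.D) b → ∀ y ∈ NZ (cK v (KV (C.fo (leF C.D (tc b))) t)),
      (∀ j, ‖y‖ ≤ cbd * ‖brJ 1 ((rfJ 1 v).mulVec (E.U j)) y‖) ∧
      ‖y‖ ≤ cbd * ‖brJ 1 ((rfJ 1 v).mulVec y) (uv E.y)‖ := by
    intro b hb' y hy'
    obtain ⟨m, hm⟩ := dt b hb'
    exact do4_ok hT hP h2 hv hb hm y hy'
  rw [← ha] at t0 t1 t2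
  rw [← he] at t3
  exact {
    stU := U_all (P := fun U => U ∈ NZ (cK v (KV (C.fo (leF C.D (sc a0))) t))) t0 t1 t2
    doU := fun b hb' y hy' => (t4 b hb' y hy').1
    enY := t3
    doY := fun b hb' y hy' => (t4 b hb' y hy').2 }

/-- the start vectors are independent -/
theorem seB_ind {E : SE} {ca ce : ℕ} (h : seB T C E ca ce = true) : LinearIndependent ℂ E.U :=
  ind_ok (andB_t' h).1

end

end Pool.Agent.Helper21.SW
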