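import Pool.Agent.Helper51.FR.Frame
import Pool.Agent.Helper93.CW.Blk

/-!
Row M2, part 2: the products `nc` of the frame: `w = |nc|²` and its derivative without products.
-/

set_option autoImplicit false
noncomputable section
namespace Pool.Agent.Helper51.FR

open Pool.Agent.Helper90.C75
open Pool.Agent.Helper90.KMT
open Pool.Agent.Helper90.KMO
open Pool.Agent.Helper86.CT (Alg Mo er mk cst addM subM mulM conjM invM invOK)
open Pool.Agent.Helper62.SQM
open Pool.Agent.Helper62.TVM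
open Pool.Agent.Helper6.MONO (Kp)
open Pool.Agent.Helper6.MONO.W2
open Filter Topology

/-- `w = |nc|²` -/
theorem nc_sq {p : ℕ} {W a b : ℝ} (hR : 0 ≤ W ^ 2 - cX p W a b ^ 2 - cY p a b ^ 2)
    (hW : 0 < W) (s : Bool) (k : ℕ) : ‖nc (phi p) (vC p W a b) s k‖ ^ 2 =
      W - (ep (phi p) * star (cZ p W a b) * ev (phi p) s k).re := by
  have hR2 : cR p W a b ^ 2 = W ^ 2 - cX p W a b ^ 2 - cY p a b ^ 2 := Real.sq_sqrt hR
  have hR0 : 0 ≤ cR p W a b := Real.sqrt_nonneg _
  have hB0 : 0 < (W + cR p W a b) / 2 := by linarith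
  have hBp : 0 < cB p W a b := Real.sqrt_pos.2 hB0
  have hB2 : cB p W a b ^ 2 = (W + cR p W a b) / 2 := Real.sq_sqrt hB0.le
  have he := ep_mul (phi p)
  have hE := Pool.Agent.Helper6.MONO.W2.ev_norm (phi p) s k
  have hz : star (cZ p W a b) * cZ p W a b =
      2 * ((cB p W a b : ℝ) : ℂ) ^ 2 * (((W : ℝ) : ℂ) - ((cR p W a b : ℝ) : ℂ)) := by
    have e1 : star (cZ p W a b) * cZ p W a b = ((cX p W a b ^ 2 + cY p a b ^ 2 : ℝ) : ℂ) := by
      have h := Complex.mul_conj (cZ p W a b)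
      rw [Complex.normSq_apply] at h
      have e : (cZ p W a b).re * (cZ p W a b).re + (cZ p W a b).im * (cZ p W a b).im =
          cX p W a b ^ 2 + cY p a b ^ 2 := by
        show cX p W a b * cX p W a b + cY p a b * cY p a b = _
        ring
      rw [e] at h
      rw [mul_comm]
      exact h
    rw [e1]
    have e2 : cX p W a b ^ 2 + cY p a b ^ 2 = 2 * cB p W a b ^ 2 * (W - cR p W a b) := by
      rw [hB2]
      linear_combination hR2
    rw [e2]
    push_cast
    ring
  have hB2c : ((cB p W a b : ℝ) : ℂ) ^ 2 = (((W : ℝ) : ℂ) + ((cR p W a b : ℝ) : ℂ)) / 2 := by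
    have := congrArg (fun t : ℝ => (t : ℂ)) hB2
    push_cast at this
    exact this
  have hBc : ((cB p W a b : ℝ) : ℂ) ≠ 0 := by exact_mod_cast hBp.ne'
  apply Complex.ofReal_injective
  have e0 : ((‖nc (phi p) (vC p W a b) s k‖ ^ 2 : ℝ) : ℂ) =
      nc (phi p) (vC p W a b) s k * star (nc (phi p) (vC p W a b) s k) := by
    have := Complex.mul_conj (nc (phi p) (vC p W a b) s k)
    rw [Complex.normSq_eq_norm_sq] at this
    exact this.symm
  have e1 : nc (phi p) (vC p W a b) s k = -(ep (phi p) * star (cZ p W a b)) /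
      (2 * ((cB p W a b : ℝ) : ℂ)) + ((cB p W a b : ℝ) : ℂ) * star (ev (phi p) s k) := rfl
  have k1 : ∀ t : ℝ, star (t : ℂ) = (t : ℂ) := fun t => Complex.conj_ofReal t
  have t2 : star (2 : ℂ) = 2 := by
    have := k1 2
    simp
  have e2 : star (nc (phi p) (vC p W a b) s k) = -(star (ep (phi p)) * cZ p W a b) /
      (2 * ((cB p W a b : ℝ) : ℂ)) + ((cB p W a b : ℝ) : ℂ) * ev (phi p) s k := by
    rw [e1, star_add, star_div₀, star_neg, star_mul', star_mul', star_mul', star_star, star_star,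
      k1, t2]
  have e3 : (((ep (phi p) * star (cZ p W a b) * ev (phi p) s k).re : ℝ) : ℂ) =
      (ep (phi p) * star (cZ p W a b) * ev (phi p) s k +
        star (ep (phi p)) * cZ p W a b * star (ev (phi p) s k)) / 2 := by
    have := Complex.re_eq_add_conj (ep (phi p) * star (cZ p W a b) * ev (phi p) s k)
    rw [this]
    have e4 : (starRingEnd ℂ) (ep (phi p) * star (cZ p W a b) * ev (phi p) s k) =
        star (ep (phi p)) * cZ p W a b * star (ev (phi p) s k) := by
      show star (ep (phi p) * star (cZ p W a b) * ev (phi p) s k) = _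
      rw [star_mul', star_mul', star_star]
    rw [e4]
  rw [e0, e2, e1, Complex.ofReal_sub, e3]
  generalize ((cB p W a b : ℝ) : ℂ) = B at *
  generalize ((cR p W a b : ℝ) : ℂ) = R at *
  generalize star (ep (phi p)) = e' at *
  generalize ep (phi p) = e at *
  generalize star (ev (phi p) s k) = E' at *
  generalize ev (phi p) s k = E at *
  generalize star (cZ p W a b) = z' at *
  generalize cZ p W a b = z at *
  have main : (-(e * z') / (2 * B) + B * E') * (-(e' * z) / (2 * B) + B * E) * (4 * B ^ 2) =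
      ((W : ℂ) - (e * z' * E + e' * z * E') / 2) * (4 * B ^ 2) := by
    have m1 : (-(e * z') / (2 * B) + B * E') * (-(e' * z) / (2 * B) + B * E) * (4 * B ^ 2) =
        (-(e * z') + 2 * B ^ 2 * E') * (-(e' * z) + 2 * B ^ 2 * E) := by
      field_simp
      ring
    rw [m1]
    linear_combination (z' * z) * he + hz + 4 * B ^ 4 * hE + 4 * B ^ 2 * hB2c
  have h4 : (4 * B ^ 2) ≠ 0 := mul_ne_zero (by norm_num) (pow_ne_zero 2 hBc)
  exact mul_right_cancel₀ h4 main

/-- the derivative of `w` is a constant -/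
theorem nc_wd {p : ℕ} {W a b : ℝ} (hR : 0 < W ^ 2 - cX p W a b ^ 2 - cY p a b ^ 2)
    (hW : 2 < W) (s : Bool) (k : ℕ) :
    2 * (nc (phi p) (wC p W a b) s k * star (nc (phi p) (vC p W a b) s k)).re =
      1 - 2 / Kp p * (ep (phi p) * ev (phi p) s k).re := by
  have h0 : HasDerivAt (fun W => nc (phi p) (vC p W a b) s k) (nc (phi p) (wC p W a b) s k) W :=
    (vC_deriv hR hW 0).add ((vC_deriv hR hW 1).mul_const _)
  have h1 := h0.mul h0.star
  have h2 : HasDerivAt (fun W : ℝ => ((‖nc (phi p) (vC p W a b) s k‖ ^ 2 : ℝ) : ℂ))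
      (nc (phi p) (wC p W a b) s k * star (nc (phi p) (vC p W a b) s k) +
        nc (phi p) (vC p W a b) s k * star (nc (phi p) (wC p W a b) s k)) W := by
    refine h1.congr_of_eventuallyEq (Eventually.of_forall fun W => ?_)
    have := Complex.mul_conj (nc (phi p) (vC p W a b) s k)
    rw [Complex.normSq_eq_norm_sq] at this
    exact this.symm
  have cX' : HasDerivAt (fun W => cX p W a b) (2 / Kp p) W := by
    have h := ((((hasDerivAt_id W).const_mul 2).sub_const a).sub_const b).div_const (Kp p)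
    refine h.congr_deriv ?_
    ring
  have hev : ∀ᶠ V in 𝓝 W, 0 < V ^ 2 - cX p V a b ^ 2 - cY p a b ^ 2 ∧ 2 < V := by
    have c1 : ContinuousAt (fun V : ℝ => V ^ 2 - cX p V a b ^ 2 - cY p a b ^ 2) W :=
      ((continuousAt_id.pow 2).sub (cX'.continuousAt.pow 2)).sub continuousAt_const
    have c2 : ContinuousAt (fun V : ℝ => V) W := continuousAt_id
    exact (c1.eventually (lt_mem_nhds hR)).and (c2.eventually (lt_mem_nhds hW))
  have h3 : HasDerivAt (fun W : ℝ => ((‖nc (phi p) (vC p W a b) s k‖ ^ 2 : ℝ) : ℂ))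
      (((1 - 2 / Kp p * (ep (phi p) * ev (phi p) s k).re : ℝ)) : ℂ) W := by
    have g1 : HasDerivAt (fun V : ℝ => V - (ep (phi p) * star (cZ p V a b) *
        ev (phi p) s k).re) (1 - 2 / Kp p * (ep (phi p) * ev (phi p) s k).re) W := by
      have e1 : (fun V : ℝ => V - (ep (phi p) * star (cZ p V a b) * ev (phi p) s k).re) =
          fun V : ℝ => V - (cX p V a b * (ep (phi p) * ev (phi p) s k).re +
            cY p a b * (ep (phi p) * ev (phi p) s k).im) := by
        funext V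
        rw [star_cZ]
        have : ep (phi p) * (((cX p V a b : ℝ) : ℂ) - ((cY p a b : ℝ) : ℂ) * Complex.I) *
            ev (phi p) s k = ((cX p V a b : ℝ) : ℂ) * (ep (phi p) * ev (phi p) s k) -
            ((cY p a b : ℝ) : ℂ) * (Complex.I * (ep (phi p) * ev (phi p) s k)) := by ring
        rw [this, Complex.sub_re, Complex.re_ofReal_mul, Complex.re_ofReal_mul]
        simp
        ring
      rw [e1]
      exact (hasDerivAt_id W).sub ((cX'.mul_const _).add_const _)
    refine (g1.ofReal_comp).congr_of_eventuallyEq ?_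
    filter_upwards [hev] with V hV
    rw [nc_sq hV.1.le (by linarith [hV.2]) s k]
  have h4 := h2.unique h3
  have h5 := congrArg Complex.re h4
  rw [Complex.ofReal_re, Complex.add_re] at h5
  have e6 : (nc (phi p) (vC p W a b) s k * star (nc (phi p) (wC p W a b) s k)).re =
      (nc (phi p) (wC p W a b) s k * star (nc (phi p) (vC p W a b) s k)).re := by
    have e7 : nc (phi p) (vC p W a b) s k * star (nc (phi p) (wC p W a b) s k) =
        star (nc (phi p) (wC p W a b) s k * star (nc (phi p) (vC p W a b) s k)) := by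
      rw [star_mul', star_star, mul_comm]
    rw [e7]
    exact Complex.conj_re _
  rw [e6] at h5
  linarith

/-! ### models -/

/-- the model of `w`; `E` the model of `ev` -/
def ncw {α : Type} (A : Alg α) (e E : Mo α) (f : FrM α) : Mo α :=
  subM A f.W (hfM A (re2M A (mulM A (mulM A e E) f.Z)))
/-- the model of `w'` -/
def ncd {α : Type} (A : Alg α) (k e E : Mo α) : Mo α :=
  subM A (oM A) (mulM A k (re2M A (mulM A e E)))

section

variable {α : Type} {D : ℕ} {lf : α → Vt D → ℂ} {A : Alg α} {t : ℕ → ℝ}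

theorem TOK_ncw (hA : AOK D lf A) (hP : PT D t) {p : ℕ} {W a b : ℝ} {x : BxM α} {f : FrM α}
    {E : Mo α} (hx : BxOK D lf t p W a b x) (hf : FrOK D lf t p W a b f)
    (hR : 0 ≤ W ^ 2 - cX p W a b ^ 2 - cY p a b ^ 2) (hW : 0 < W) {s : Bool} {k : ℕ}
    (hE : TOK D lf t (ev (phi p) s k) E) :
    TOK D lf t ((‖nc (phi p) (vC p W a b) s k‖ ^ 2 : ℝ) : ℂ) (ncw A x.e E f) := by
  rw [nc_sq hR hW s k]
  have h1 := (hx.e.mul hA hP hE).mul hA hP hf.Z
  refine tc (hf.Wm.sub hA (TOK_hf hA hP (TOK_re2 hA h1))) ?_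
  have e1 : ep (phi p) * star (cZ p W a b) * ev (phi p) s k =
      ep (phi p) * ev (phi p) s k * star (cZ p W a b) := by ring
  rw [e1]
  push_cast
  ring

theorem TOK_ncd (hA : AOK D lf A) (hP : PT D t) {p : ℕ} {W a b : ℝ} {x : BxM α}
    {E : Mo α} (hx : BxOK D lf t p W a b x)
    (hR : 0 < W ^ 2 - cX p W a b ^ 2 - cY p a b ^ 2) (hW : 2 < W) {s : Bool} {k : ℕ}
    (hE : TOK D lf t (ev (phi p) s k) E) :
    TOK D lf t ((2 * (nc (phi p) (wC p W a b) s k * star (nc (phi p) (vC p W a b) s k)).re : ℝ) :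
      ℂ) (ncd A x.ki x.e E) := by
  rw [nc_wd hR hW s k]
  refine tc ((TOK_one hA hP).sub hA (hx.k.mul hA hP (TOK_re2 hA (hx.e.mul hA hP hE)))) ?_
  push_cast
  ring

/-- THE FRAME AT A POINT OF THE LINE -/
theorem frame_x (hA : AOK D lf A) (hP : PT D t) {p q r : ℕ} (hp : 3 ≤ p) (hq : 3 ≤ q)
    (hr : 3 ≤ r) {x : ℝ} (h1 : -2 < x) (h2 : x < 2) (ht : 0 ≤ tt (phi p) (Kp q) (Kp r) x)
    {X : BxM α} {h : FrH α} (hx : BxOK D lf t p (cW p q r x) (Kp q ^ 2) (Kp r ^ 2) X)
    (hok : frOK A X h = true) :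
    FrOK D lf t p (cW p q r x) (Kp q ^ 2) (Kp r ^ 2) (frC A X h) ∧
      0 < cW p q r x ^ 2 - cX p (cW p q r x) (Kp q ^ 2) (Kp r ^ 2) ^ 2 -
        cY p (Kp q ^ 2) (Kp r ^ 2) ^ 2 ∧ 2 < cW p q r x :=
  frame_tok hA hP hx (cS_pos hp hq hr h1 h2).2.le (by unfold cW; linarith) hok

end

end Pool.Agent.Helper51.FR
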