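import Pool.Agent.Helper51.FR.PtR
import Pool.Agent.Helper82.CW.SED
import Pool.Agent.Helper82.CW.NTG

/-!
MP_c75db0, Plan W, row M7 (part): regions transported by the letter `2`: `K (u) = Kh (c u)`,
`c = rfJ 1 v`. Tests of the inclusions, of the invariance, of the start and of the end.
-/

set_option autoImplicit false
noncomputable section
namespace Pool.Agent.Helper51.FR

open Matrix
open Pool.Agent.Helper90.C75
open Pool.Agent.Helper90.KMT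
open Pool.Agent.Helper90.KMO
open Pool.Agent.Helper86.C75 (Z)
open Pool.Agent.Helper86.CX (Cx andB)
open Pool.Agent.Helper86.CT (Alg Mo KM er mk cst addM subM mulM conjM invM invOK)
open Pool.Agent.Helper62.TVM
open Pool.Agent.Helper17.K9 (V9)
open Pool.Agent.Helper82.TST (Lv Lw LvOK LwOK HK geT cgK rgK cg9 vaT doT llK HK_ll hr_ll cuW)
open Pool.Agent.Helper6.MONO
open Pool.Agent.Helper6.MONO.W2

/-- THE TRANSPORTED FORM `c^* K c` -/
def trK (v : V3) (K : Mt) : Mt := (rfJ 1 v).conjTranspose * K * rfJ 1 v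

theorem hr_trK (v : V3) (K : Mt) (u : V3) : hr (trK v K) u = hr K ((rfJ 1 v).mulVec u) :=
  hr_conj K (rfJ 1 v) u

theorem NZ_trK {v : V3} (h2 : brJ 1 v v = 2) (K : Mt) (u : V3) :
    u ∈ NZ (trK v K) ↔ (rfJ 1 v).mulVec u ∈ NZ K := by
  constructor
  · rintro ⟨h, h0⟩
    rw [hr_trK] at h
    exact ⟨h, hr_c0 h2 u h0⟩
  · rintro ⟨h, h0⟩
    have h3 := hr_c0 h2 _ h0
    rw [rfJ_sq h2] at h3
    exact ⟨by rw [hr_trK]; exact h, h3⟩

/-- inclusions -/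
theorem inc_hat {v : V3} (h2 : brJ 1 v v = 2) {Ke Ki : Mt} (h : ∀ u ∈ NZ Ke, 0 ≤ hr Ki u) :
    NZ (trK v Ke) ⊆ NZ (trK v Ki) := by
  intro u hu
  rw [NZ_trK h2] at hu ⊢
  exact ⟨h _ hu, hu.2⟩

/-- invariance: the matrix `c M c` -/
theorem IN_hat {v : V3} (h2 : brJ 1 v v = 2) {K1 Kt M : Mt}
    (h : ∀ u ∈ NZ K1, 0 ≤ hr (trK v Kt) ((rfJ 1 v * M * rfJ 1 v).mulVec u)) :
    IN (trK v K1) (trK v Kt) v M := by
  intro u hu
  rw [NZ_trK h2] at hu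
  have h3 := h _ hu
  rw [← Matrix.mulVec_mulVec, rfJ_sq h2, ← Matrix.mulVec_mulVec] at h3
  exact h3

/-- start vectors -/
theorem st_hat {v : V3} (h2 : brJ 1 v v = 2) {K : Mt} {U : V3}
    (h : (rfJ 1 v).mulVec U ∈ NZ K) : U ∈ NZ (trK v K) := (NZ_trK h2 K U).2 h

theorem doU_hat {v : V3} (h2 : brJ 1 v v = 2) {K : Mt} {U : V3} {C B : ℝ} (hC0 : 0 ≤ C)
    (hC : ∀ y : V3, ‖(rfJ 1 v).mulVec y‖ ≤ C * ‖y‖)
    (h : ∀ y ∈ NZ K, ‖y‖ ≤ B * ‖brJ 1 U y‖) (y : V3) (hy : y ∈ NZ (trK v K)) :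
    ‖y‖ ≤ C * B * ‖brJ 1 ((rfJ 1 v).mulVec U) y‖ := by
  rw [NZ_trK h2] at hy
  have h3 := h _ hy
  rw [← rfJ_adj] at h3
  have h4 := hC ((rfJ 1 v).mulVec y)
  rw [rfJ_sq h2] at h4
  have h5 := mul_le_mul_of_nonneg_left h3 hC0
  linarith

theorem doY_hat {v : V3} (h2 : brJ 1 v v = 2) {K : Mt} {U : V3} {C B : ℝ} (hC0 : 0 ≤ C)
    (hC : ∀ y : V3, ‖(rfJ 1 v).mulVec y‖ ≤ C * ‖y‖)
    (h : ∀ y ∈ NZ K, ‖y‖ ≤ B * ‖brJ 1 U y‖) (y : V3) (hy : y ∈ NZ (trK v K)) :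
    ‖y‖ ≤ C * B * ‖brJ 1 ((rfJ 1 v).mulVec y) U‖ := by
  have h3 := doU_hat h2 hC0 hC h y hy
  have e : ‖brJ 1 ((rfJ 1 v).mulVec y) U‖ = ‖brJ 1 ((rfJ 1 v).mulVec U) y‖ := by
    rw [rfJ_adj, ← brJ_star, norm_star]
  rw [e]
  exact h3

/-- norm of the letter -/
theorem nm_c {v : V3} {V : ℝ} (hv : ∀ i, ‖v i‖ ≤ V) (y : V3) :
    ‖(rfJ 1 v).mulVec y‖ ≤ (1 + 3 * V * V) * ‖y‖ := by
  have hV : 0 ≤ V := (norm_nonneg _).trans (hv 0)
  have hb : ‖brJ 1 y v‖ ≤ 3 * V * ‖y‖ := by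
    have e : brJ 1 y v = y 0 * star (v 0) + y 1 * star (v 1) - y 2 * star (v 2) := by
      unfold brJ
      push_cast
      ring
    rw [e]
    have k : ∀ i, ‖y i * star (v i)‖ ≤ ‖y‖ * V := by
      intro i
      rw [norm_mul, norm_star]
      exact mul_le_mul (norm_le_pi_norm y i) (hv i) (norm_nonneg _) (norm_nonneg _)
    have h1 := norm_sub_le (y 0 * star (v 0) + y 1 * star (v 1)) (y 2 * star (v 2))
    have h2 := norm_add_le (y 0 * star (v 0)) (y 1 * star (v 1))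
    have := k 0
    have := k 1
    have := k 2
    linarith
  have hn : 0 ≤ (1 + 3 * V * V) * ‖y‖ := by positivity
  rw [pi_norm_le_iff_of_nonneg hn]
  intro i
  rw [rfJ_mulVec, Pi.sub_apply, Pi.smul_apply, smul_eq_mul]
  have h1 := norm_sub_le (y i) (brJ 1 y v * v i)
  rw [norm_mul] at h1
  have h2 : ‖brJ 1 y v‖ * ‖v i‖ ≤ 3 * V * ‖y‖ * V :=
    mul_le_mul hb (hv i) (norm_nonneg _) (by positivity)
  have h3 := norm_le_pi_norm y i
  linarith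

/-! ### the tests -/

/-- the entries of `v` are at most `8` -/
def vbT {α : Type} (v : V3m α) : Bool :=
  andB (Nat.ble (Nat.add v.a.B v.a.r) (nat_lit 2251799813685248))
    (andB (Nat.ble (Nat.add v.b.B v.b.r) (nat_lit 2251799813685248))
      (Nat.ble (Nat.add v.c.B v.c.r) (nat_lit 2251799813685248)))

section

variable {α : Type} {D : ℕ} {lf : α → Vt D → ℂ} {A : Alg α} {t : ℕ → ℝ}

theorem TOK_nm (hP : PT D t) {f : ℂ} {M : Mo α} (h : TOK D lf t f M) :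
    UU * ‖f‖ ≤ (M.B : ℝ) + M.r := by
  have h1 := h.mod
  have h2 : ‖(UU : ℂ) * f - avg (wtT D t) (lf M.v)‖ ≤ M.r := h.mod
  have h3 : ‖avg (wtT D t) (lf M.v)‖ ≤ M.B := norm_avg_le hP.w h.val.bd
  have h4 := norm_sub_norm_le ((UU : ℂ) * f) (avg (wtT D t) (lf M.v))
  rw [norm_mul, norm_UU] at h4
  linarith

theorem vb_ok (hP : PT D t) {v : V3} {V : V3m α} (hv : TW D lf t v V) (h : vbT V = true) :
    ∀ i, ‖v i‖ ≤ 8 := by
  have hU := UU_pos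
  obtain ⟨h1, h⟩ := andB_t' h
  obtain ⟨h2, h3⟩ := andB_t' h
  have key : ∀ {f : ℂ} {M : Mo α}, TOK D lf t f M →
      Nat.ble (Nat.add M.B M.r) 2251799813685248 = true → ‖f‖ ≤ 8 := by
    intro f M hf hb
    have k1 := TOK_nm hP hf
    have k2 : M.B + M.r ≤ 2251799813685248 := Nat.le_of_ble_eq_true hb
    have k3 : (M.B : ℝ) + M.r ≤ 2251799813685248 := by exact_mod_cast k2
    have k4 : (2251799813685248 : ℝ) = UU * 8 := by unfold UU; norm_num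
    rw [k4] at k3
    exact le_of_mul_le_mul_left (k1.trans k3) hU
  intro i
  fin_cases i
  · exact key hv.a h1
  · exact key hv.b h2
  · exact key hv.c h3

theorem cn_ok (hP : PT D t) {v : V3} {V : V3m α} (hv : TW D lf t v V) (h : vbT V = true)
    (y : V3) : ‖(rfJ 1 v).mulVec y‖ ≤ 193 * ‖y‖ := by
  have h1 := nm_c (vb_ok hP hv h) y
  norm_num at h1
  exact h1

/-- the constant of `doU`, `doY` -/
def cbd : ℝ := 193 * 1048576

/-- THE TEST `doU`: `W` = model of the constant vector `U` -/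
theorem doU_tr (hA : AOK D lf A) (hP : PT D t) {v : V3} (h2 : brJ 1 v v = 2) {V : V3m α}
    (hv : TW D lf t v V) (hb : vbT V = true) {K : Mt} {M : KM α} (hK : HK D lf t K M) {U : V3}
    {W : V3m α} (hU : TW D lf t U W) {L : Lw α} (hL : LwOK D lf L) {l0 : ℕ} {m : Z}
    (ht : doT A L l0 m W M = true) (y : V3) (hy : y ∈ NZ (trK v K)) :
    ‖y‖ ≤ cbd * ‖brJ 1 ((rfJ 1 v).mulVec U) y‖ :=
  doU_hat h2 (by norm_num) (cn_ok hP hv hb)
    (Pool.Agent.Helper82.TST.do_ok hA hP hK hU hL ht) y hy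

theorem doY_tr (hA : AOK D lf A) (hP : PT D t) {v : V3} (h2 : brJ 1 v v = 2) {V : V3m α}
    (hv : TW D lf t v V) (hb : vbT V = true) {K : Mt} {M : KM α} (hK : HK D lf t K M) {U : V3}
    {W : V3m α} (hU : TW D lf t U W) {L : Lw α} (hL : LwOK D lf L) {l0 : ℕ} {m : Z}
    (ht : doT A L l0 m W M = true) (y : V3) (hy : y ∈ NZ (trK v K)) :
    ‖y‖ ≤ cbd * ‖brJ 1 ((rfJ 1 v).mulVec y) U‖ :=
  doY_hat h2 (by norm_num) (cn_ok hP hv hb)
    (Pool.Agent.Helper82.TST.do_ok hA hP hK hU hL ht) y hy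

/-- THE TESTS `stU`, `enY` -/
theorem st_tr (hA : AOK D lf A) (hP : PT D t) {v : V3} (h2 : brJ 1 v v = 2) {V : V3m α}
    (hv : TW D lf t v V) {K : Mt} {M : KM α} (hK : HK D lf t K M) {U : V3} {W : V3m α}
    (hU : TW D lf t U W) (h0 : hr J1 U = 0) {L : Lv α} (hL : LvOK D lf L)
    (ht : vaT A L M (cuW A V W) = true) : U ∈ NZ (trK v K) :=
  st_hat h2 (Pool.Agent.Helper82.TST.va_ok hA hP hK (Pool.Agent.Helper82.TST.TW.cu hA hP hv hU)
    (hr_c0 h2 U h0) hL ht)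

/-- THE TEST OF AN INCLUSION -/
theorem inc_tr (hP : PT D t) {v : V3} (h2 : brJ 1 v v = 2) {Ke Ki : Mt} {M N : KM α}
    (hi : HK D lf t Ki M) (he : HK D lf t Ke N) {L : Lw α} (hL : LwOK D lf L) {l : ℕ} {m : Z}
    (ht : geT L (nat_lit 0) l m M N = true) : NZ (trK v Ke) ⊆ NZ (trK v Ki) :=
  inc_hat h2 fun u hu => hi.incl hP he hL ht u hu

/-- the model of the transported form -/
theorem HK_tr (hA : AOK D lf A) (hP : PT D t) {v : V3} {V : V3m α} (hv : TW D lf t v V) {K : Mt}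
    {M : KM α} (hK : HK D lf t K M) : HK D lf t (trK v K) (cgK A M V) := hK.cg hA hP hv

/-- THE TEST OF THE INVARIANCE: `F` = model of `(c M c)^* (c^* Kt c) (c M c)` -/
theorem IN_tr (hP : PT D t) {v : V3} (h2 : brJ 1 v v = 2) {K1 Kt M N : Mt} {F G : KM α}
    (hN : rfJ 1 v * M * rfJ 1 v = N) (hF : HK D lf t (N.conjTranspose * trK v Kt * N) F)
    (hK : HK D lf t K1 G) {L : Lw α} (hL : LwOK D lf L) {l : ℕ} {m : Z}
    (ht : geT L (nat_lit 0) l m F G = true) : IN (trK v K1) (trK v Kt) v M := by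
  refine IN_hat h2 fun u hu => ?_
  rw [hN, ← hr_conj]
  exact hF.incl hP hK hL ht u hu

/-- general matrices: `X` = model of `c M c` -/
theorem IN_gen (hA : AOK D lf A) (hP : PT D t) {v : V3} (h2 : brJ 1 v v = 2)
    {K1 Kt M : Mt} {Kc G : KM α} (hc : HK D lf t (trK v Kt) Kc)
    {X : V9 α} (hX : TV D lf t (rfJ 1 v * M * rfJ 1 v) X) (hK : HK D lf t K1 G) {L : Lw α}
    (hL : LwOK D lf L) {l : ℕ} {m : Z} (ht : geT L (nat_lit 0) l m (cg9 A X Kc) G = true) :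
    IN (trK v K1) (trK v Kt) v M :=
  IN_tr hP h2 rfl (hc.g9 hA hP hX) hK hL ht

/-- runs: `c M c = s s^* J - τ` -/
theorem IN_run (hA : AOK D lf A) (hP : PT D t) {v : V3} (h2 : brJ 1 v v = 2) {K1 Kt M : Mt}
    {Kc G : KM α} (hc : HK D lf t (trK v Kt) Kc) {s : V3} {τ : ℝ}
    (hM : rfJ 1 v * M * rfJ 1 v = Pool.Agent.Helper82.TST.Rk s τ) {S : V3m α} {T : Mo α}
    (hs : TW D lf t s S) (hT : TOK D lf t (τ : ℂ) T) (hK : HK D lf t K1 G) {L : Lw α}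
    (hL : LwOK D lf L) {l : ℕ} {m : Z} (ht : geT L (nat_lit 0) l m (rgK A T Kc S) G = true) :
    IN (trK v K1) (trK v Kt) v M :=
  IN_tr hP h2 hM (hc.rg hA hP hs hT) hK hL ht

end

end Pool.Agent.Helper51.FR
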