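import Pool.Agent.Helper12.CW.NF5
import Pool.Agent.Helper62.C75.TVM

/-!
Row M2 (MP_c75db0, star frame in the kernel): models of the frame `vC`, `wC` of `NF5`.
-/

set_option autoImplicit false
noncomputable section
namespace Pool.Agent.Helper51.FR

open Pool.Agent.Helper90.C75
open Pool.Agent.Helper90.KMT
open Pool.Agent.Helper90.KMO
open Pool.Agent.Helper86.C75 (Z)
open Pool.Agent.Helper86.CX (Cx andB)
open Pool.Agent.Helper86.CT (Alg Mo er mk cst addM subM mulM conjM invM invOK)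
open Pool.Agent.Helper62.SQM
open Pool.Agent.Helper62.TVM
open Pool.Agent.Helper6.MONO (Kp)
open Pool.Agent.Helper6.MONO.W2 (cX cY cZ cR cB vC cRd cBd wC cW ep phi ev nc star_cZ)

/-! ### the kernel side -/

/-- the data of a box: models of `a = κ_q²`, `b = κ_r²`, `W`, `1 / κ_p`, `1 / (2 sin φ)`, `e` -/
structure BxM (α : Type) where
  a : Mo α
  b : Mo α
  W : Mo α
  ki : Mo α
  si : Mo α
  e : Mo α

/-- hints: control values of `R`, `B`, `√(W - 2)`, lower bounds and centres -/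
structure FrH (α : Type) where
  sR : α
  sB : α
  sT : α
  mR : Nat
  cR : Nat
  mB : Nat
  cB : Nat
  mT : Nat
  cT : Nat

/-- models of the frame: `Z` is the model of `star cZ` -/
structure FrM (α : Type) where
  Z : Mo α
  W : Mo α
  R : Mo α
  v : V3m α
  w : V3m α

/-- `i` -/
def iC : Cx := ⟨Z.p (nat_lit 0), Z.p (nat_lit 281474976710656)⟩
def oM {α : Type} (A : Alg α) : Mo α := cst A (nat_lit 281474976710656) (nat_lit 0)
def tM {α : Type} (A : Alg α) : Mo α := cst A (nat_lit 562949953421312) (nat_lit 0)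

def fX {α : Type} (A : Alg α) (x : BxM α) : Mo α :=
  mulM A (subM A (subM A (addM A x.W x.W) x.a) x.b) x.ki
def fY {α : Type} (A : Alg α) (x : BxM α) : Mo α := mulM A (subM A x.a x.b) x.si
def fZ {α : Type} (A : Alg α) (X Y : Mo α) : Mo α :=
  subM A X (mulM A (cstC A iC (nat_lit 0)) Y)
def fF {α : Type} (A : Alg α) (W X Y : Mo α) : Mo α :=
  subM A (subM A (mulM A W W) (mulM A X X)) (mulM A Y Y)
def fR {α : Type} (A : Alg α) (h : FrH α) (F : Mo α) : Mo α :=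
  sqM A h.mR F (mk A h.sR (nat_lit 0))
def fG {α : Type} (A : Alg α) (W R : Mo α) : Mo α := hfM A (addM A W R)
def fB {α : Type} (A : Alg α) (h : FrH α) (G : Mo α) : Mo α :=
  sqM A h.mB G (mk A h.sB (nat_lit 0))
def fH {α : Type} (A : Alg α) (W : Mo α) : Mo α := subM A W (tM A)
def fT {α : Type} (A : Alg α) (h : FrH α) (H : Mo α) : Mo α :=
  sqM A h.mT H (mk A h.sT (nat_lit 0))
/-- `1 / (2 B)` -/
def fI {α : Type} (A : Alg α) (B : Mo α) : Mo α := invM A (addM A B B)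
/-- `R'` -/
def fRd {α : Type} (A : Alg α) (W X k R : Mo α) : Mo α :=
  mulM A (subM A W (mulM A X (addM A k k))) (invM A R)
/-- `B'` -/
def fBd {α : Type} (A : Alg α) (Rd I : Mo α) : Mo α := hfM A (mulM A (addM A (oM A) Rd) I)
/-- `v0` -/
def fv {α : Type} (A : Alg α) (e Zc I : Mo α) : Mo α := negM A (mulM A (mulM A e Zc) I)
/-- `v0'` -/
def fw {α : Type} (A : Alg α) (e k I v Bd : Mo α) : Mo α :=
  negM A (addM A (mulM A (mulM A e (addM A k k)) I) (mulM A v (mulM A Bd (addM A I I))))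

/-- last step -/
def fr5 {α : Type} (A : Alg α) (x : BxM α) (Zc R B T I v Bd : Mo α) : FrM α :=
  ⟨Zc, x.W, R, ⟨v, B, T⟩, ⟨fw A x.e x.ki I v Bd, Bd, fI A T⟩⟩
def fr4 {α : Type} (A : Alg α) (x : BxM α) (X Zc R B T I : Mo α) : FrM α :=
  fr5 A x Zc R B T I (fv A x.e Zc I) (fBd A (fRd A x.W X x.ki R) I)
def fr3 {α : Type} (A : Alg α) (x : BxM α) (X Zc R B T : Mo α) : FrM α :=
  fr4 A x X Zc R B T (fI A B)
def fr2 {α : Type} (A : Alg α) (x : BxM α) (h : FrH α) (X Zc R : Mo α) : FrM α :=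
  fr3 A x X Zc R (fB A h (fG A x.W R)) (fT A h (fH A x.W))
def fr1 {α : Type} (A : Alg α) (x : BxM α) (h : FrH α) (X Y : Mo α) : FrM α :=
  fr2 A x h X (fZ A X Y) (fR A h (fF A x.W X Y))
/-- THE MODELS OF THE FRAME -/
def frC {α : Type} (A : Alg α) (x : BxM α) (h : FrH α) : FrM α := fr1 A x h (fX A x) (fY A x)

def ok4 {α : Type} (A : Alg α) (R B T : Mo α) : Bool :=
  andB (invOK A R) (andB (invOK A (addM A B B)) (invOK A (addM A T T)))
def ok3 {α : Type} (A : Alg α) (h : FrH α) (R G H : Mo α) : Bool :=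
  andB (sqOK A h.mB h.cB G (mk A h.sB (nat_lit 0))) (andB (sqOK A h.mT h.cT H
    (mk A h.sT (nat_lit 0))) (ok4 A R (fB A h G) (fT A h H)))
def ok2 {α : Type} (A : Alg α) (x : BxM α) (h : FrH α) (R : Mo α) : Bool :=
  ok3 A h R (fG A x.W R) (fH A x.W)
def ok1 {α : Type} (A : Alg α) (x : BxM α) (h : FrH α) (F : Mo α) : Bool :=
  andB (sqOK A h.mR h.cR F (mk A h.sR (nat_lit 0))) (ok2 A x h (fR A h F))
/-- THE TEST -/
def frOK {α : Type} (A : Alg α) (x : BxM α) (h : FrH α) : Bool :=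
  ok1 A x h (fF A x.W (fX A x) (fY A x))

/-! ### the real side -/

section

variable {α : Type} {D : ℕ} {lf : α → Vt D → ℂ} {A : Alg α} {t : ℕ → ℝ}

theorem andB_t' {a b : Bool} (h : andB a b = true) : a = true ∧ b = true := by
  cases a <;> cases b <;> simp_all [andB]

theorem TOK_one (hA : AOK D lf A) (hP : PT D t) : TOK D lf t 1 (oM A) :=
  TOK.cst' hA hP (by unfold UU; norm_num)
theorem TOK_two (hA : AOK D lf A) (hP : PT D t) : TOK D lf t 2 (tM A) :=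
  TOK.cst' hA hP (by unfold UU; norm_num)
theorem TOK_i (hA : AOK D lf A) (hP : PT D t) : TOK D lf t Complex.I (cstC A iC (nat_lit 0)) := by
  refine TOK_cstC hA hP (le_of_eq ?_)
  have e : (UU : ℂ) * Complex.I - cz iC = 0 := by
    apply Complex.ext
    · show _ = (0 : ℝ)
      simp [cz, iC, zv_p, UU]
    · simp [cz, iC, zv_p, UU]
  rw [e, norm_zero]
  simp

/-- the models of a box against real numbers -/
structure BxOK (D : ℕ) (lf : α → Vt D → ℂ) (t : ℕ → ℝ) (p : ℕ) (W a b : ℝ) (x : BxM α) :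
    Prop where
  a : TOK D lf t ((a : ℝ) : ℂ) x.a
  b : TOK D lf t ((b : ℝ) : ℂ) x.b
  W : TOK D lf t ((W : ℝ) : ℂ) x.W
  k : TOK D lf t ((1 / Kp p : ℝ) : ℂ) x.ki
  s : TOK D lf t ((1 / (2 * Real.sin (phi p)) : ℝ) : ℂ) x.si
  e : TOK D lf t (ep (phi p)) x.e

/-- THE MODELS OF THE FRAME -/
structure FrOK (D : ℕ) (lf : α → Vt D → ℂ) (t : ℕ → ℝ) (p : ℕ) (W a b : ℝ) (f : FrM α) :
    Prop where
  Z : TOK D lf t (star (cZ p W a b)) f.Z
  Wm : TOK D lf t ((W : ℝ) : ℂ) f.W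
  R : TOK D lf t ((cR p W a b : ℝ) : ℂ) f.R
  v : TW D lf t (vC p W a b) f.v
  w : TW D lf t (wC p W a b) f.w

theorem frame_tok (hA : AOK D lf A) (hP : PT D t) {p : ℕ} {W a b : ℝ} {x : BxM α} {h : FrH α}
    (hx : BxOK D lf t p W a b x) (h0 : 0 ≤ W ^ 2 - cX p W a b ^ 2 - cY p a b ^ 2)
    (h2 : 2 ≤ W) (hok : frOK A x h = true) :
    FrOK D lf t p W a b (frC A x h) ∧ 0 < W ^ 2 - cX p W a b ^ 2 - cY p a b ^ 2 ∧ 2 < W := by
  have hX : TOK D lf t ((cX p W a b : ℝ) : ℂ) (fX A x) := by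
    refine tc ((((hx.W.add hA hx.W).sub hA hx.a).sub hA hx.b).mul hA hP hx.k) ?_
    unfold cX
    push_cast
    ring
  have hY : TOK D lf t ((cY p a b : ℝ) : ℂ) (fY A x) := by
    refine tc ((hx.a.sub hA hx.b).mul hA hP hx.s) ?_
    unfold cY
    push_cast
    ring
  have hZ : TOK D lf t (star (cZ p W a b)) (fZ A (fX A x) (fY A x)) := by
    refine tc (hX.sub hA ((TOK_i hA hP).mul hA hP hY)) ?_
    rw [star_cZ]
    ring
  have hF : TOK D lf t (((W ^ 2 - cX p W a b ^ 2 - cY p a b ^ 2 : ℝ)) : ℂ)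
      (fF A x.W (fX A x) (fY A x)) := by
    refine tc (((hx.W.mul hA hP hx.W).sub hA (hX.mul hA hP hX)).sub hA (hY.mul hA hP hY)) ?_
    push_cast
    ring
  obtain ⟨o1, o2⟩ := andB_t' hok
  obtain ⟨hR, hR0⟩ := TOK_sqrt hA hP h0 hF o1
  obtain ⟨o3, o4⟩ := andB_t' o2
  obtain ⟨o5, o6⟩ := andB_t' o4
  obtain ⟨o7, o8⟩ := andB_t' o6
  obtain ⟨o9, o10⟩ := andB_t' o8
  change TOK D lf t ((cR p W a b : ℝ) : ℂ) (fR A h (fF A x.W (fX A x) (fY A x))) at hR
  have hRp : 0 < cR p W a b := Real.sqrt_pos.2 hR0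
  have hG : TOK D lf t (((W + cR p W a b) / 2 : ℝ) : ℂ)
      (fG A x.W (fR A h (fF A x.W (fX A x) (fY A x)))) := by
    refine tc (TOK_hf hA hP (hx.W.add hA hR)) ?_
    push_cast
    ring
  obtain ⟨hB, hB0⟩ := TOK_sqrt hA hP (by linarith : 0 ≤ (W + cR p W a b) / 2) hG o3
  change TOK D lf t ((cB p W a b : ℝ) : ℂ) (fB A h _) at hB
  have hBp : 0 < cB p W a b := Real.sqrt_pos.2 hB0
  have hH : TOK D lf t ((W - 2 : ℝ) : ℂ) (fH A x.W) := by
    refine tc (hx.W.sub hA (TOK_two hA hP)) ?_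
    push_cast
    ring
  obtain ⟨hT, hT0⟩ := TOK_sqrt hA hP (by linarith : 0 ≤ W - 2) hH o5
  change TOK D lf t ((Real.sqrt (W - 2) : ℝ) : ℂ) (fT A h _) at hT
  have hTp : 0 < Real.sqrt (W - 2) := Real.sqrt_pos.2 hT0
  have hiR := (TOK.inv hA hP hR o7).1
  have hiB := (TOK.inv hA hP (hB.add hA hB) o9).1
  have hiT := (TOK.inv hA hP (hT.add hA hT) o10).1
  have cR0 : ((cR p W a b : ℝ) : ℂ) ≠ 0 := by exact_mod_cast hRp.ne'
  have cB0 : ((cB p W a b : ℝ) : ℂ) ≠ 0 := by exact_mod_cast hBp.ne'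
  have cT0 : ((Real.sqrt (W - 2) : ℝ) : ℂ) ≠ 0 := by exact_mod_cast hTp.ne'
  have hRd : TOK D lf t ((cRd p W a b : ℝ) : ℂ) (fRd A x.W (fX A x) x.ki
      (fR A h (fF A x.W (fX A x) (fY A x)))) := by
    refine tc ((hx.W.sub hA (hX.mul hA hP (hx.k.add hA hx.k))).mul hA hP hiR) ?_
    unfold cRd
    push_cast
    field_simp
    ring
  have hBd : TOK D lf t ((cBd p W a b : ℝ) : ℂ) (fBd A (fRd A x.W (fX A x) x.ki
      (fR A h (fF A x.W (fX A x) (fY A x)))) (fI A (fB A h (fG A x.W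
      (fR A h (fF A x.W (fX A x) (fY A x))))))) := by
    refine tc (TOK_hf hA hP (((TOK_one hA hP).add hA hRd).mul hA hP hiB)) ?_
    unfold cBd
    push_cast
    field_simp
    ring
  have hv : TOK D lf t (vC p W a b 0) (fv A x.e (fZ A (fX A x) (fY A x)) (fI A (fB A h (fG A x.W
      (fR A h (fF A x.W (fX A x) (fY A x))))))) := by
    refine tc (TOK_neg hA hP ((hx.e.mul hA hP hZ).mul hA hP hiB)) ?_
    show _ = -(ep (phi p) * star (cZ p W a b)) / (2 * (cB p W a b : ℂ))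
    generalize star (cZ p W a b) = z
    field_simp
    ring
  have hw : TOK D lf t (wC p W a b 0) (fw A x.e x.ki (fI A (fB A h (fG A x.W
      (fR A h (fF A x.W (fX A x) (fY A x)))))) (fv A x.e (fZ A (fX A x) (fY A x)) (fI A (fB A h
      (fG A x.W (fR A h (fF A x.W (fX A x) (fY A x)))))))
      (fBd A (fRd A x.W (fX A x) x.ki (fR A h (fF A x.W (fX A x) (fY A x)))) (fI A (fB A h
      (fG A x.W (fR A h (fF A x.W (fX A x) (fY A x)))))))) := by
    refine tc (TOK_neg hA hP (((hx.e.mul hA hP (hx.k.add hA hx.k)).mul hA hP hiB).add hA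
      (hv.mul hA hP (hBd.mul hA hP (hiB.add hA hiB))))) ?_
    show _ = -(ep (phi p) * (((2 / Kp p : ℝ) : ℂ) / (2 * (cB p W a b : ℂ)) -
      star (cZ p W a b) * (cBd p W a b : ℂ) / (2 * (cB p W a b : ℂ) ^ 2)))
    have e1 : vC p W a b 0 = -(ep (phi p) * star (cZ p W a b)) / (2 * (cB p W a b : ℂ)) := rfl
    rw [e1]
    have e2 : ((2 / Kp p : ℝ) : ℂ) = 2 * ((1 / Kp p : ℝ) : ℂ) := by
      push_cast
      ring
    rw [e2]
    generalize ((1 / Kp p : ℝ) : ℂ) = k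
    generalize star (cZ p W a b) = z
    field_simp
    ring
  refine ⟨⟨hZ, hx.W, hR, ⟨hv, hB, hT⟩, ⟨hw, hBd, ?_⟩⟩, hR0, by linarith⟩
  refine tc hiT ?_
  show _ = ((1 / (2 * Real.sqrt (W - 2)) : ℝ) : ℂ)
  push_cast
  field_simp
  ring

end

end Pool.Agent.Helper51.FR
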