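import Pool.Agent.Helper51.FR.Hat
import Pool.Agent.Helper21.SW.M7T

/-!
MP_c75db0, Plan W, row M7 (B3): the inclusions of the forms of a cell.
-/

set_option autoImplicit false
noncomputable section
namespace Pool.Agent.Helper21.SW

open Matrix
open Pool.Agent.Helper90.C75 (Vt)
open Pool.Agent.Helper90.KMT
open Pool.Agent.Helper90.KMO (UU UU_pos UUc_ne cz zv zv_p)
open Pool.Agent.Helper86.C75 (Z)
open Pool.Agent.Helper86.CX (Cx andB)
open Pool.Agent.Helper86.CT (N3 Alg Mo KM mk cst addM subM mulM conjM A3 A4)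
open Pool.Agent.Helper17.K9 (V9)
open Pool.Agent.Helper62.TVM
open Pool.Agent.Helper12.NKT (CovD Fm dfF)
open Pool.Agent.Helper51.FR (andB_t' inc_tr)
open Pool.Agent.Helper82.TST (HK Lw3 Lw3_ok geT)
open Pool.Agent.Helper6.MONO (V3)
open Pool.Agent.Helper6.MONO.W2 (Mt NT NZ rfJ brJ)

/-- the inclusions in the form `ki` (list of the included forms, multipliers) -/
def incL {κ γ ε : Type} (T : TK κ γ) (C : Cel κ) (ki : KM T3) (l : List (Nat × ε)) :
    List Mu → Bool :=
  List.rec (motive := fun _ => List Mu → Bool) (fun _ => true)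
    (fun e _ ih ms => List.rec (motive := fun _ => Bool) false
      (fun m ms' _ => andB (geT Lw3 (nat_lit 0) m.l m.m ki (T.km (C.fo e.1))) (ih ms')) ms) l

/-- the inclusions of the forms `i`, `i + 1`, ... -/
def incA {κ γ ε : Type} (T : TK κ γ) (C : Cel κ) (l : List (Fm ε)) : Nat → List (List Mu) → Bool :=
  List.rec (motive := fun _ => Nat → List (List Mu) → Bool) (fun _ _ => true)
    (fun f _ ih i ms => List.rec (motive := fun _ => Bool) false
      (fun m ms' _ => andB (incL T C (T.km (C.fo i)) f.inc m) (ih (Nat.succ i) ms')) ms) l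

/-- THE TEST OF THE INCLUSIONS OF A CELL -/
def incB {κ γ : Type} (T : TK κ γ) (C : Cel κ) (ms : List (List Mu)) : Bool :=
  incA T C C.D.fm (nat_lit 0) ms

section

variable {κ γ ε : Type} {KV : κ → (ℕ → ℝ) → Mt} {T : TK κ γ} {C : Cel κ} {t : ℕ → ℝ}

theorem incL_ok (hT : TKL KV T) (hP : PT 3 t) {v : V3} (h2 : brJ 1 v v = 2) {i : ℕ} :
    ∀ {l : List (ℕ × ε)} {ms : List Mu}, incL T C (T.km (C.fo i)) l ms = true → ∀ e ∈ l,
      NZ (cK v (KV (C.fo e.1) t)) ⊆ NZ (cK v (KV (C.fo i) t)) := by
  intro l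
  induction l with
  | nil => intro ms _ e he; cases he
  | cons a l ih =>
    intro ms h e he
    cases ms with
    | nil => exact absurd h (by show ¬ (false = true); simp)
    | cons m ms =>
      obtain ⟨h1, h2'⟩ := andB_t' h
      rcases List.mem_cons.1 he with rfl | he
      · exact inc_tr hP h2 (hT.km hP) (hT.km hP) Lw3_ok h1
      · exact ih h2' e he

theorem incA_ok (hT : TKL KV T) (hP : PT 3 t) {v : V3} (h2 : brJ 1 v v = 2) :
    ∀ {l : List (Fm ε)} {k : ℕ} {ms : List (List Mu)}, incA T C l k ms = true →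
      ∀ i, ∀ e ∈ (l.getD i dfF).inc,
      NZ (cK v (KV (C.fo e.1) t)) ⊆ NZ (cK v (KV (C.fo (k + i)) t)) := by
  intro l
  induction l with
  | nil =>
    intro k ms _ i e he
    have h0 : (([] : List (Fm ε)).getD i dfF).inc = [] := by
      cases i <;> rfl
    rw [h0] at he
    cases he
  | cons a l ih =>
    intro k ms h i e he
    cases ms with
    | nil => exact absurd h (by show ¬ (false = true); simp)
    | cons m ms =>
      obtain ⟨h1, h2'⟩ := andB_t' h
      cases i with
      | zero => exact incL_ok hT hP h2 h1 e he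
      | succ i =>
        have h3 := ih h2' i e he
        have e1 : k + (i + 1) = Nat.succ k + i := by
          have : Nat.succ k = k + 1 := rfl
          omega
        rw [e1]
        exact h3

/-- **THE INCLUSIONS OF THE FORMS** -/
theorem incB_ok (hT : TKL KV T) (hP : PT 3 t) {v : V3} (h2 : brJ 1 v v = 2)
    {ms : List (List Mu)} (h : incB T C ms = true) (i : ℕ) :
    ∀ e ∈ (C.D.fm.getD i dfF).inc,
      NZ (cK v (KV (C.fo e.1) t)) ⊆ NZ (cK v (KV (C.fo i) t)) := by
  intro e he
  have h3 := incA_ok hT hP h2 h i e he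
  have e0 : (nat_lit 0) + i = i := Nat.zero_add i
  rw [e0] at h3
  exact h3

end

end Pool.Agent.Helper21.SW
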