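import Pool.Agent.Helper51.FR.Hat
import Pool.Agent.Helper91.BX.T
import Pool.Agent.Helper21.SW.M7T

/-!
MP_c75db0, Plan W, row M7 (km): forms whose entries are multi-affine functions of the point of the
box (tables of 16-bit fields at the eight corners), exact models.
-/

set_option autoImplicit false
set_option exponentiation.threshold 4000
noncomputable section
namespace Pool.Agent.Helper51.FR

open Matrix
open Pool.Agent.Helper90.C75 (Vt avg wtT bt avg_const avg_T_succ Wts Mod)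
open Pool.Agent.Helper90.KMT
open Pool.Agent.Helper90.KMO (UU UU_pos cz zv zv_p)
open Pool.Agent.Helper86.C75 (Z)
open Pool.Agent.Helper86.CX (Cx)
open Pool.Agent.Helper86.CT (N3 Alg Mo KM mk A0 A1 A2 A3)
open Pool.Agent.Helper91.BX (avg_bt' PT.pr tu tu_lt)
open Pool.Agent.Helper82.TST (HK)
open Pool.Agent.Helper6.MONO.W2 (Mt)
open Pool.Agent.Helper21.SW (T3 lf3)

/-! ### kernel side -/

/-- twice the affine function with the ends `x`, `y` (in one more direction) -/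
def pr {α : Type} (A : Alg α) (x y : α) : N3 α := N3.q (A.add x x) (A.add x y) (A.add y y)

/-- eight times the multi-affine function with the values `g k_i` at the corners -/
def ma3 (g : Nat → Cx) (k0 k1 k2 k3 k4 k5 k6 k7 : Nat) : T3 :=
  pr A2 (pr A1 (pr A0 (g k0) (g k1)) (pr A0 (g k2) (g k3)))
    (pr A1 (pr A0 (g k4) (g k5)) (pr A0 (g k6) (g k7)))

/-- the field at the bit `s` -/
def fdK (k s : Nat) : Nat := Nat.land (Nat.shiftRight k s) (nat_lit 65535)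
/-- its value times `2 ^ e` -/
def fdZ (e k s : Nat) : Z :=
  Z.sub' (Nat.shiftLeft (fdK k s) e) (Nat.shiftLeft (nat_lit 32768) e)
def lfR (e s k : Nat) : Cx := ⟨fdZ e k s, Z.p (nat_lit 0)⟩
def lfC (e s : Nat) (k : Nat) : Cx := ⟨fdZ e k s, fdZ e k (Nat.add s (nat_lit 16))⟩

def kmG (f : (Nat → Cx) → T3) (e : Nat) : KM T3 :=
  ⟨mk A3 (f (lfR e (nat_lit 0))) (nat_lit 0), mk A3 (f (lfR e (nat_lit 16))) (nat_lit 0),
    mk A3 (f (lfR e (nat_lit 32))) (nat_lit 0), mk A3 (f (lfC e (nat_lit 48))) (nat_lit 0),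
    mk A3 (f (lfC e (nat_lit 80))) (nat_lit 0), mk A3 (f (lfC e (nat_lit 112))) (nat_lit 0)⟩

/-- the constant form -/
def kmC (k : Nat) : KM T3 := kmG (fun g => A3.cs (g k)) (nat_lit 33)
/-- the multi-affine form -/
def kmV (k0 k1 k2 k3 k4 k5 k6 k7 : Nat) : KM T3 :=
  kmG (fun g => ma3 g k0 k1 k2 k3 k4 k5 k6 k7) (nat_lit 30)

/-! ### real side -/

/-- the multi-affine function -/
def maR (t : ℕ → ℝ) (x : Fin 8 → ℂ) : ℂ :=
  ((1 - t 2 : ℝ) : ℂ) * (((1 - t 1 : ℝ) : ℂ) * (((1 - t 0 : ℝ) : ℂ) * x 0 + ((t 0 : ℝ) : ℂ) * x 1) +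
    ((t 1 : ℝ) : ℂ) * (((1 - t 0 : ℝ) : ℂ) * x 2 + ((t 0 : ℝ) : ℂ) * x 3)) +
  ((t 2 : ℝ) : ℂ) * (((1 - t 1 : ℝ) : ℂ) * (((1 - t 0 : ℝ) : ℂ) * x 4 + ((t 0 : ℝ) : ℂ) * x 5) +
    ((t 1 : ℝ) : ℂ) * (((1 - t 0 : ℝ) : ℂ) * x 6 + ((t 0 : ℝ) : ℂ) * x 7))

section

variable {α : Type} {D : ℕ} {lf : α → Vt D → ℂ} {A : Alg α} {t : ℕ → ℝ}

theorem avg_add2 (w : Vt D → ℝ) (F G : Vt D → ℂ) :
    avg w (fun v => F v + G v) = avg w F + avg w G := by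
  unfold avg
  rw [← Finset.sum_add_distrib]
  refine Finset.sum_congr rfl fun v _ => ?_
  ring

theorem av_pr (hA : AOK D lf A) (x y : α) :
    avg (wtT (D + 1) t) (nlf lf (pr A x y)) = 2 * (((1 - t D : ℝ) : ℂ) * avg (wtT D t) (lf x) +
      ((t D : ℝ) : ℂ) * avg (wtT D t) (lf y)) := by
  have key : ∀ a b : α, avg (wtT D t) (lf (A.add a b)) = avg (wtT D t) (lf a) + avg (wtT D t) (lf b) := by
    intro a b
    have e : lf (A.add a b) = fun v => lf a v + lf b v := funext fun v => hA.law.hadd a b v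
    rw [e, avg_add2]
  rw [avg_T_succ, avg_bt']
  show _ * avg (wtT D t) (fun v => lf (A.add x x) v) + _ * avg (wtT D t) (fun v => lf (A.add x y) v) +
    _ * avg (wtT D t) (fun v => lf (A.add y y) v) = _
  have e1 : avg (wtT D t) (fun v => lf (A.add x x) v) = _ := key x x
  have e2 : avg (wtT D t) (fun v => lf (A.add x y) v) = _ := key x y
  have e3 : avg (wtT D t) (fun v => lf (A.add y y) v) = _ := key y y
  rw [e1, e2, e3]
  push_cast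
  ring

theorem avg_zero (x : Cx) : avg (wtT 0 t) (lf0 x) = cz x := by
  have e : lf0 x = fun _ => cz x := rfl
  rw [e]
  exact avg_const (Wts.T (D := 0) (t := t) (fun j hj => absurd hj (by omega))
    (fun j hj => absurd hj (by omega))) _

theorem av_ma3 (g : ℕ → Cx) (k0 k1 k2 k3 k4 k5 k6 k7 : ℕ) :
    avg (wtT 3 t) (lf3 (ma3 g k0 k1 k2 k3 k4 k5 k6 k7)) = 8 * maR t ![cz (g k0), cz (g k1),
      cz (g k2), cz (g k3), cz (g k4), cz (g k5), cz (g k6), cz (g k7)] := by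
  unfold lf3 ma3
  rw [av_pr A2_ok, av_pr A1_ok, av_pr A1_ok, av_pr A0_ok, av_pr A0_ok, av_pr A0_ok, av_pr A0_ok]
  simp only [avg_zero]
  unfold maR
  simp only [Matrix.cons_val]
  ring

end

/-- the field, signed -/
def fdR (k s : ℕ) : ℝ := (((fdK k s : ℕ) : ℝ) - 32768) / 32768

theorem zv_fd (e k s : ℕ) : ((zv (fdZ e k s) : ℤ) : ℝ) = 2 ^ (e + 15) * fdR k s := by
  have h : zv (fdZ e k s) = (((fdK k s) <<< e : ℕ) : ℤ) - ((32768 <<< e : ℕ) : ℤ) :=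
    Pool.Agent.Helper90.KMO.zv_br _ _
  rw [h, Nat.shiftLeft_eq, Nat.shiftLeft_eq]
  unfold fdR
  push_cast
  rw [pow_add]
  ring

/-- the hermitian matrix with the entries `a b c x y w` -/
def hmR (a b c : ℝ) (x y w : ℂ) : Mt :=
  !![(a : ℂ), x, y; star x, (b : ℂ), w; star y, star w, (c : ℂ)]

/-- complex number of two fields -/
def fdX (k s : ℕ) : ℂ := ⟨fdR k s, fdR k (Nat.add s (nat_lit 16))⟩

/-- THE FORM OF A TABLE, units `2 ^ (-15)` -/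
def tbR (k : ℕ) : Mt :=
  hmR (fdR k (nat_lit 0)) (fdR k (nat_lit 16)) (fdR k (nat_lit 32)) (fdX k (nat_lit 48))
    (fdX k (nat_lit 80)) (fdX k (nat_lit 112))

theorem tbR_hm (k : ℕ) (i j : Fin 3) : tbR k j i = star (tbR k i j) := by
  fin_cases i <;> fin_cases j <;> simp [tbR, hmR]

/-- THE MULTI-AFFINE COMBINATION -/
def tbV (k0 k1 k2 k3 k4 k5 k6 k7 : ℕ) (t : ℕ → ℝ) : Mt :=
  Matrix.of fun i j => maR t ![tbR k0 i j, tbR k1 i j, tbR k2 i j, tbR k3 i j, tbR k4 i j,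
    tbR k5 i j, tbR k6 i j, tbR k7 i j]

theorem maR_star (t : ℕ → ℝ) (x y : Fin 8 → ℂ) (h : ∀ i, y i = star (x i)) :
    maR t y = star (maR t x) := by
  have e : ∀ r : ℝ, star (r : ℂ) = (r : ℂ) := fun r => Complex.conj_ofReal r
  unfold maR
  simp only [h, star_add, star_mul', e]

theorem maR_congr {t t' : ℕ → ℝ} (h : ∀ j < 3, t j = t' j) (x : Fin 8 → ℂ) :
    maR t x = maR t' x := by
  unfold maR
  rw [h 0 (by omega), h 1 (by omega), h 2 (by omega)]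

theorem tbV_hm (k0 k1 k2 k3 k4 k5 k6 k7 : ℕ) (t : ℕ → ℝ) (i j : Fin 3) :
    tbV k0 k1 k2 k3 k4 k5 k6 k7 t j i = star (tbV k0 k1 k2 k3 k4 k5 k6 k7 t i j) := by
  refine maR_star t _ _ fun m => ?_
  fin_cases m <;> exact tbR_hm _ i j

theorem tbV_tu (k0 k1 k2 k3 k4 k5 k6 k7 : ℕ) (t : ℕ → ℝ) (u : ℝ) :
    tbV k0 k1 k2 k3 k4 k5 k6 k7 (tu 3 t u) = tbV k0 k1 k2 k3 k4 k5 k6 k7 t := by
  ext i j
  exact maR_congr (fun m hm => tu_lt hm u) _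

/-! ### models -/

theorem cz_lfR (e s k : ℕ) : cz (lfR e s k) = ((2 ^ (e + 15) : ℝ) : ℂ) * ((fdR k s : ℝ) : ℂ) := by
  apply Complex.ext
  · show ((zv (fdZ e k s) : ℤ) : ℝ) = _
    rw [zv_fd, Complex.re_ofReal_mul, Complex.ofReal_re]
  · show ((zv (Z.p (nat_lit 0)) : ℤ) : ℝ) = _
    rw [Complex.im_ofReal_mul, Complex.ofReal_im, zv_p]
    simp

theorem cz_lfC (e s k : ℕ) : cz (lfC e s k) = ((2 ^ (e + 15) : ℝ) : ℂ) * fdX k s := by
  apply Complex.ext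
  · show ((zv (fdZ e k s) : ℤ) : ℝ) = _
    rw [zv_fd, Complex.re_ofReal_mul]
    rfl
  · show ((zv (fdZ e k (Nat.add s (nat_lit 16))) : ℤ) : ℝ) = _
    rw [zv_fd, Complex.im_ofReal_mul]
    rfl

section

variable {t : ℕ → ℝ}

/-- an exact model -/
theorem TOK_ex {v : T3} {f : ℂ} (h : avg (wtT 3 t) (lf3 v) = (UU : ℂ) * f) :
    TOK 3 lf3 t f (mk A3 v (nat_lit 0)) := by
  refine ⟨vt_mk A3_ok _ _, ?_⟩
  show ‖(UU : ℂ) * f - avg (wtT 3 t) (lf3 v)‖ ≤ ((nat_lit 0 : ℕ) : ℝ)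
  rw [h]
  simp

theorem UUc : (UU : ℂ) = ((2 ^ (33 + 15) : ℝ) : ℂ) := by
  unfold UU
  norm_num

theorem UUc8 : (UU : ℂ) = 8 * ((2 ^ (30 + 15) : ℝ) : ℂ) := by
  unfold UU
  norm_num

theorem av_cs (hP : PT 3 t) (x : Cx) : avg (wtT 3 t) (lf3 (A3.cs x)) = cz x := by
  have e : lf3 (A3.cs x) = fun _ => cz x := funext fun v => A3_ok.cst x v
  rw [e, avg_const hP.w]

theorem HK_kmC (hP : PT 3 t) (k : ℕ) : HK 3 lf3 t (tbR k) (kmC k) := by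
  have h1 : ∀ s, TOK 3 lf3 t ((fdR k s : ℝ) : ℂ) (mk A3 (A3.cs (lfR (nat_lit 33) s k)) (nat_lit 0)) := by
    intro s
    refine TOK_ex ?_
    rw [av_cs hP, cz_lfR, UUc]
  have h2 : ∀ s, TOK 3 lf3 t (fdX k s) (mk A3 (A3.cs (lfC (nat_lit 33) s k)) (nat_lit 0)) := by
    intro s
    refine TOK_ex ?_
    rw [av_cs hP, cz_lfC, UUc]
  exact ⟨h1 _, h1 _, h1 _, h2 _, h2 _, h2 _, tbR_hm k⟩

theorem maR_mul (c : ℂ) (x : Fin 8 → ℂ) : maR t (fun i => c * x i) = c * maR t x := by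
  unfold maR
  ring

theorem HK_kmV (k0 k1 k2 k3 k4 k5 k6 k7 : ℕ) :
    HK 3 lf3 t (tbV k0 k1 k2 k3 k4 k5 k6 k7 t) (kmV k0 k1 k2 k3 k4 k5 k6 k7) := by
  have key : ∀ (g : ℕ → Cx) (f : ℕ → ℂ), (∀ k, cz (g k) = ((2 ^ (30 + 15) : ℝ) : ℂ) * f k) →
      TOK 3 lf3 t (maR t ![f k0, f k1, f k2, f k3, f k4, f k5, f k6, f k7])
        (mk A3 (ma3 g k0 k1 k2 k3 k4 k5 k6 k7) (nat_lit 0)) := by
    intro g f h
    refine TOK_ex ?_
    have e : (![cz (g k0), cz (g k1), cz (g k2), cz (g k3), cz (g k4), cz (g k5), cz (g k6),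
        cz (g k7)] : Fin 8 → ℂ) = fun i => ((2 ^ (30 + 15) : ℝ) : ℂ) *
        (![f k0, f k1, f k2, f k3, f k4, f k5, f k6, f k7] : Fin 8 → ℂ) i := by
      funext i
      fin_cases i <;> exact h _
    rw [av_ma3, UUc8, e, maR_mul, mul_assoc]
  have h1 : ∀ s, TOK 3 lf3 t (maR t ![((fdR k0 s : ℝ) : ℂ), ((fdR k1 s : ℝ) : ℂ),
      ((fdR k2 s : ℝ) : ℂ), ((fdR k3 s : ℝ) : ℂ), ((fdR k4 s : ℝ) : ℂ), ((fdR k5 s : ℝ) : ℂ),
      ((fdR k6 s : ℝ) : ℂ), ((fdR k7 s : ℝ) : ℂ)])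
      (mk A3 (ma3 (lfR (nat_lit 30) s) k0 k1 k2 k3 k4 k5 k6 k7) (nat_lit 0)) :=
    fun s => key _ (fun k => ((fdR k s : ℝ) : ℂ)) fun k => cz_lfR _ _ _
  have h2 : ∀ s, TOK 3 lf3 t (maR t ![fdX k0 s, fdX k1 s, fdX k2 s, fdX k3 s, fdX k4 s, fdX k5 s,
      fdX k6 s, fdX k7 s]) (mk A3 (ma3 (lfC (nat_lit 30) s) k0 k1 k2 k3 k4 k5 k6 k7) (nat_lit 0)) :=
    fun s => key _ (fun k => fdX k s) fun k => cz_lfC _ _ _
  exact ⟨h1 _, h1 _, h1 _, h2 _, h2 _, h2 _, tbV_hm _ _ _ _ _ _ _ _ t⟩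

end

end Pool.Agent.Helper51.FR
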