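import Pool.Agent.Helper51.FR.UPa

/-!
# Row UP: approximate solutions
-/

set_option autoImplicit false

namespace Pool.Agent.Helper51.FR

open Matrix Pool.Agent.Helper81.Fmr Pool.Agent.Helper42.FR

universe u

theorem pinv {α : Type} (P : Equiv.Perm α) (w : α) : P (P⁻¹ w) = w := P.apply_symm_apply w

section cnt
variable {Y : Type} [Fintype Y] [DecidableEq Y] {q : ℕ}

theorem cnt1 (p : Y) (B : Finset (Fin q)) :
    (Finset.univ.filter fun y : Y → Fin q => y p ∈ B).card * q = B.card * q ^ Fintype.card Y := by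
  have e1 : (Finset.univ.filter fun y : Y → Fin q => y p ∈ B) =
      Fintype.piFinset (fun j => if j = p then B else Finset.univ) := by
    ext y
    simp only [Finset.mem_filter, Finset.mem_univ, true_and, Fintype.mem_piFinset]
    constructor
    · intro h j
      split_ifs with hj
      · rw [hj]
        exact h
      · exact Finset.mem_univ _
    · intro h
      have := h p
      rwa [if_pos rfl] at this
  rw [e1, Fintype.card_piFinset, ← Finset.mul_prod_erase Finset.univ _ (Finset.mem_univ p),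
    if_pos rfl]
  have e2 : ∏ j ∈ Finset.univ.erase p, (if j = p then B else Finset.univ : Finset (Fin q)).card =
      q ^ (Fintype.card Y - 1) := by
    rw [Finset.prod_congr rfl (fun j hj => by
      rw [if_neg (Finset.ne_of_mem_erase hj), Finset.card_univ, Fintype.card_fin])]
    rw [Finset.prod_const, Finset.card_erase_of_mem (Finset.mem_univ p), Finset.card_univ]
  rw [e2]
  have h3 : 0 < Fintype.card Y := Fintype.card_pos_iff.mpr ⟨p⟩
  obtain ⟨n, hn⟩ : ∃ n, Fintype.card Y = n + 1 := ⟨Fintype.card Y - 1, by omega⟩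
  rw [hn, Nat.add_sub_cancel, pow_succ]
  ring

theorem cnt2 (p r : Y) (hpr : p ≠ r) (u v : Fin q) :
    (Finset.univ.filter fun y : Y → Fin q => y p = u ∧ y r = v).card * (q * q) =
      q ^ Fintype.card Y := by
  have e1 : (Finset.univ.filter fun y : Y → Fin q => y p = u ∧ y r = v) =
      Fintype.piFinset (fun j => if j = p then {u} else if j = r then {v} else Finset.univ) := by
    ext y
    simp only [Finset.mem_filter, Finset.mem_univ, true_and, Fintype.mem_piFinset]
    constructor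
    · rintro ⟨h, h'⟩ j
      split_ifs with hj hj'
      · rw [hj, h]
        exact Finset.mem_singleton_self _
      · rw [hj', h']
        exact Finset.mem_singleton_self _
      · exact Finset.mem_univ _
    · intro h
      have g1 := h p
      have g2 := h r
      rw [if_pos rfl, Finset.mem_singleton] at g1
      rw [if_neg (Ne.symm hpr), if_pos rfl, Finset.mem_singleton] at g2
      exact ⟨g1, g2⟩
  have hr : r ∈ Finset.univ.erase p := Finset.mem_erase.mpr ⟨Ne.symm hpr, Finset.mem_univ _⟩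
  rw [e1, Fintype.card_piFinset, ← Finset.mul_prod_erase Finset.univ _ (Finset.mem_univ p),
    if_pos rfl, ← Finset.mul_prod_erase _ _ hr, if_neg (Ne.symm hpr), if_pos rfl]
  have e2 : ∏ j ∈ (Finset.univ.erase p).erase r,
      (if j = p then {u} else if j = r then {v} else Finset.univ : Finset (Fin q)).card =
      q ^ (Fintype.card Y - 1 - 1) := by
    rw [Finset.prod_congr rfl (fun j hj => by
      rw [if_neg (Finset.ne_of_mem_erase (Finset.mem_of_mem_erase hj)),
        if_neg (Finset.ne_of_mem_erase hj), Finset.card_univ, Fintype.card_fin])]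
    rw [Finset.prod_const, Finset.card_erase_of_mem hr,
      Finset.card_erase_of_mem (Finset.mem_univ p), Finset.card_univ]
  rw [e2, Finset.card_singleton, Finset.card_singleton]
  have h3 := Finset.card_pos.mpr ⟨r, hr⟩
  rw [Finset.card_erase_of_mem (Finset.mem_univ p), Finset.card_univ] at h3
  obtain ⟨n, hn⟩ : ∃ n, Fintype.card Y = n + 1 + 1 := ⟨Fintype.card Y - 1 - 1, by omega⟩
  rw [hn, Nat.add_sub_cancel, Nat.add_sub_cancel, pow_succ, pow_succ]
  ring

/-- a permutation of two coordinates -/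
def LL (p r : Y) (h : p ≠ r) (P : Equiv.Perm (Fin q × Fin q)) : Equiv.Perm (Y → Fin q) where
  toFun y := Function.update (Function.update y p (P (y p, y r)).1) r (P (y p, y r)).2
  invFun y := Function.update (Function.update y p (P.symm (y p, y r)).1) r
    (P.symm (y p, y r)).2
  left_inv y := by
    funext j
    by_cases hj : j = r
    · subst hj
      simp [Function.update_of_ne h]
    · by_cases hj' : j = p
      · subst hj'
        simp [Function.update_of_ne h]
      · simp [Function.update_of_ne hj, Function.update_of_ne hj']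
  right_inv y := by
    funext j
    by_cases hj : j = r
    · subst hj
      simp [Function.update_of_ne h]
    · by_cases hj' : j = p
      · subst hj'
        simp [Function.update_of_ne h]
      · simp [Function.update_of_ne hj, Function.update_of_ne hj']

def loc (p r : Y) (P : Equiv.Perm (Fin q × Fin q)) : Equiv.Perm (Y → Fin q) :=
  if h : p ≠ r then LL p r h P else 1

theorem loc_pr (p r : Y) (h : p ≠ r) (P : Equiv.Perm (Fin q × Fin q)) (y : Y → Fin q) :
    (((loc p r P)⁻¹ y) p, ((loc p r P)⁻¹ y) r) = P⁻¹ (y p, y r) := by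
  unfold loc
  rw [dif_pos h]
  show ((Function.update (Function.update y p (P.symm (y p, y r)).1) r
    (P.symm (y p, y r)).2) p, (Function.update (Function.update y p (P.symm (y p, y r)).1) r
    (P.symm (y p, y r)).2) r) = P.symm (y p, y r)
  rw [Function.update_self, Function.update_of_ne h, Function.update_self]

theorem loc_ne (p r : Y) (h : p ≠ r) (P : Equiv.Perm (Fin q × Fin q)) (y : Y → Fin q) (j : Y)
    (hp : j ≠ p) (hr : j ≠ r) : loc p r P y j = y j := by
  unfold loc
  rw [dif_pos h]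
  show (Function.update (Function.update y p (P (y p, y r)).1) r (P (y p, y r)).2) j = y j
  rw [Function.update_of_ne hr, Function.update_of_ne hp]

end cnt

section
variable {F : Type u} [Field F] {G Y : Type} [Fintype Y] [DecidableEq Y] {q : ℕ}

/-- action of a permutation of the group part -/
def act (s : Equiv.Perm G) : Equiv.Perm (G × (Y → Fin q)) := Equiv.prodCongr s (Equiv.refl _)

def hh (s : Equiv.Perm G) (x : G → Y) (H0 : Equiv.Perm (Fin q × Fin q)) :
    Equiv.Perm (G × (Y → Fin q)) :=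
  Equiv.prodShear (Equiv.refl G) (fun g => loc (x g) (x (s g)) H0)

def AA (F : Type u) [Field F] (x : G → Y) (k : ℕ) : G × (Y → Fin q) → F :=
  fun c => if (c.2 (x c.1) : ℕ) < k then 1 else 0

/-- the two coordinates -/
def pair (s : Equiv.Perm G) (x : G → Y) (c : G × (Y → Fin q)) : Fin q × Fin q :=
  (c.2 (x c.1), c.2 (x (s c.1)))

theorem hh_fst (s : Equiv.Perm G) (x : G → Y) (H0 : Equiv.Perm (Fin q × Fin q))
    (c : G × (Y → Fin q)) : ((hh s x H0)⁻¹ c).1 = c.1 := rfl

theorem hh_pair (s : Equiv.Perm G) (x : G → Y) (H0 : Equiv.Perm (Fin q × Fin q))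
    (c : G × (Y → Fin q)) (h : x c.1 ≠ x (s c.1)) :
    pair s x ((hh s x H0)⁻¹ c) = H0⁻¹ (pair s x c) :=
  loc_pr (x c.1) (x (s c.1)) h H0 c.2

theorem EW_eq (s : Equiv.Perm G) (x : G → Y) (k : ℕ) (H0 : Equiv.Perm (Fin q × Fin q))
    (A0 : Fin 5 → Finset (Fin q × Fin q))
    (a0 : ∀ y, y ∈ A0 0 ↔ (y.1 : ℕ) < k) (a1 : ∀ y, H0 y ∈ A0 1 ↔ y ∈ A0 0)
    (a2 : ∀ y, H0 y ∈ A0 2 ↔ y ∈ A0 1) (a3 : ∀ y, H0 y ∈ A0 3 ↔ y ∈ A0 2)
    (a4 : ∀ y, H0 (H0 (H0 (H0 y))) ∈ A0 4 ↔ ((y.1 : ℕ) < k ∧ (y.2 : ℕ) < k))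
    (c : G × (Y → Fin q)) (h : x c.1 ≠ x (s c.1)) (i : Fin 5) :
    EW (act s) (hh s x H0) (AA F x k) i c = if pair s x c ∈ A0 i then 1 else 0 := by
  have hP : ∀ c : G × (Y → Fin q), AA F x k c = if pair s x c ∈ A0 0 then 1 else 0 := by
    intro c
    unfold AA
    by_cases hc : (c.2 (x c.1) : ℕ) < k
    · rw [if_pos hc, if_pos ((a0 _).mpr hc)]
    · rw [if_neg hc, if_neg (fun hn => hc ((a0 _).mp hn))]
  have n1 : x ((hh s x H0)⁻¹ c).1 ≠ x (s ((hh s x H0)⁻¹ c).1) := h
  have n2 : x ((hh s x H0)⁻¹ ((hh s x H0)⁻¹ c)).1 ≠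
    x (s ((hh s x H0)⁻¹ ((hh s x H0)⁻¹ c)).1) := h
  have n3 : x ((hh s x H0)⁻¹ ((hh s x H0)⁻¹ ((hh s x H0)⁻¹ c))).1 ≠
    x (s ((hh s x H0)⁻¹ ((hh s x H0)⁻¹ ((hh s x H0)⁻¹ c))).1) := h
  have b1 : ∀ w, w ∈ A0 1 ↔ H0⁻¹ w ∈ A0 0 := fun w => by
    rw [← a1, pinv]
  have b2 : ∀ w, w ∈ A0 2 ↔ H0⁻¹ w ∈ A0 1 := fun w => by
    rw [← a2, pinv]
  have b3 : ∀ w, w ∈ A0 3 ↔ H0⁻¹ w ∈ A0 2 := fun w => by
    rw [← a3, pinv]
  have b4 : ∀ w, w ∈ A0 4 ↔ (((H0⁻¹ (H0⁻¹ (H0⁻¹ (H0⁻¹ w)))).1 : ℕ) < k ∧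
      ((H0⁻¹ (H0⁻¹ (H0⁻¹ (H0⁻¹ w)))).2 : ℕ) < k) := fun w => by
    rw [← a4, pinv, pinv, pinv,
      pinv]
  fin_cases i
  · exact hP c
  · show AA F x k ((hh s x H0)⁻¹ c) = if pair s x c ∈ A0 1 then 1 else 0
    rw [hP, hh_pair s x H0 c h]
    simp only [b1]
  · show AA F x k ((hh s x H0)⁻¹ ((hh s x H0)⁻¹ c)) = if pair s x c ∈ A0 2 then 1 else 0
    rw [hP, hh_pair s x H0 _ n1, hh_pair s x H0 c h]
    simp only [b2, b1]
  · show AA F x k ((hh s x H0)⁻¹ ((hh s x H0)⁻¹ ((hh s x H0)⁻¹ c))) =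
      if pair s x c ∈ A0 3 then 1 else 0
    rw [hP, hh_pair s x H0 _ n2, hh_pair s x H0 _ n1, hh_pair s x H0 c h]
    simp only [b3, b2, b1]
  · obtain ⟨w, hw⟩ : ∃ w, w = (hh s x H0)⁻¹ ((hh s x H0)⁻¹ ((hh s x H0)⁻¹
      ((hh s x H0)⁻¹ c))) := ⟨_, rfl⟩
    have hpw : pair s x w = H0⁻¹ (H0⁻¹ (H0⁻¹ (H0⁻¹ (pair s x c)))) := by
      rw [hw, hh_pair s x H0 _ n3, hh_pair s x H0 _ n2, hh_pair s x H0 _ n1, hh_pair s x H0 c h]
    show AA F x k ((hh s x H0)⁻¹ ((hh s x H0)⁻¹ ((hh s x H0)⁻¹ ((hh s x H0)⁻¹ c)))) *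
      AA F x k (act s ((hh s x H0)⁻¹ ((hh s x H0)⁻¹ ((hh s x H0)⁻¹ ((hh s x H0)⁻¹ c))))) =
      if pair s x c ∈ A0 4 then 1 else 0
    rw [← hw]
    have e1 : (pair s x c ∈ A0 4) = (((pair s x w).1 : ℕ) < k ∧ ((pair s x w).2 : ℕ) < k) := by
      rw [hpw]
      exact propext (b4 _)
    simp only [e1]
    show (if (w.2 (x w.1) : ℕ) < k then (1 : F) else 0) *
      (if (w.2 (x (s w.1)) : ℕ) < k then (1 : F) else 0) =
      if ((w.2 (x w.1) : ℕ) < k ∧ (w.2 (x (s w.1)) : ℕ) < k) then 1 else 0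
    by_cases c1 : (w.2 (x w.1) : ℕ) < k <;> by_cases c2 : (w.2 (x (s w.1)) : ℕ) < k <;>
      simp [c1, c2]

end

theorem card_A {G Y : Type} [Fintype G] [DecidableEq G] [Fintype Y] [DecidableEq Y] {q : ℕ}
    (F : Type u) [Field F] (x : G → Y) (k : ℕ) (hkq : k ≤ q) :
    Nat.card {c : G × (Y → Fin q) // AA F x k c ≠ 0} * q =
      k * Fintype.card (G × (Y → Fin q)) := by
  classical
  have e0 : Nat.card {c : G × (Y → Fin q) // AA F x k c ≠ 0} =
      (Finset.univ.filter fun c : G × (Y → Fin q) => (c.2 (x c.1) : ℕ) < k).card := by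
    rw [Nat.card_eq_fintype_card, Fintype.card_subtype]
    congr 1
    ext c
    by_cases h : (c.2 (x c.1) : ℕ) < k <;> simp [AA, h]
  have e1 : (Finset.univ.filter fun c : G × (Y → Fin q) => (c.2 (x c.1) : ℕ) < k).card =
      ∑ g : G, (Finset.univ.filter fun y : Y → Fin q =>
        y (x g) ∈ (Finset.univ.filter fun a : Fin q => (a : ℕ) < k)).card := by
    rw [Finset.card_filter, Fintype.sum_prod_type]
    refine Finset.sum_congr rfl fun g _ => ?_
    rw [Finset.card_filter]
    refine Finset.sum_congr rfl fun y _ => ?_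
    simp
  have e2 : (Finset.univ.filter fun a : Fin q => (a : ℕ) < k).card = k := by
    have : (Finset.univ.filter fun a : Fin q => (a : ℕ) < k) =
        (Finset.univ : Finset (Fin k)).map (Fin.castLEEmb hkq) := by
      ext a
      simp only [Finset.mem_filter, Finset.mem_univ, true_and, Finset.mem_map]
      constructor
      · intro h
        exact ⟨⟨a, h⟩, rfl⟩
      · rintro ⟨b, rfl⟩
        exact b.2
    rw [this, Finset.card_map, Finset.card_univ, Fintype.card_fin]
  rw [e0, e1, Finset.sum_mul]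
  rw [Finset.sum_congr rfl fun g _ => cnt1 (x g) _, e2, Finset.sum_const, Finset.card_univ,
    Fintype.card_prod, Fintype.card_fun, Fintype.card_fin, smul_eq_mul]
  ring

theorem card_ext {G Y : Type} [Fintype G] [DecidableEq G] [Fintype Y] [DecidableEq Y] {q : ℕ}
    (s : Equiv.Perm G) (x : G → Y) (badG : Finset G) (hg : ∀ g, g ∉ badG → x g ≠ x (s g))
    (ex : Finset (Fin q × Fin q)) (hex : ex.card ≤ 1) :
    (Finset.univ.filter fun c : G × (Y → Fin q) => c.1 ∉ badG ∧ pair s x c ∈ ex).card * (q * q) ≤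
      Fintype.card (G × (Y → Fin q)) := by
  classical
  have e1 : (Finset.univ.filter fun c : G × (Y → Fin q) => c.1 ∉ badG ∧ pair s x c ∈ ex).card =
      ∑ g : G, (Finset.univ.filter fun y : Y → Fin q =>
        g ∉ badG ∧ (y (x g), y (x (s g))) ∈ ex).card := by
    rw [Finset.card_filter, Fintype.sum_prod_type]
    refine Finset.sum_congr rfl fun g _ => ?_
    rw [Finset.card_filter]
    rfl
  rw [e1, Finset.sum_mul, Fintype.card_prod, Fintype.card_fun, Fintype.card_fin]
  have e2 : ∀ g ∈ (Finset.univ : Finset G), (Finset.univ.filter fun y : Y → Fin q =>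
        g ∉ badG ∧ (y (x g), y (x (s g))) ∈ ex).card * (q * q) ≤ q ^ Fintype.card Y := by
    intro g _
    by_cases hgb : g ∈ badG
    · have : (Finset.univ.filter fun y : Y → Fin q =>
        g ∉ badG ∧ (y (x g), y (x (s g))) ∈ ex) = ∅ := by
        ext y
        simp [hgb]
      rw [this]
      simp
    · rcases ex.eq_empty_or_nonempty with he | ⟨w, hw⟩
      · have : (Finset.univ.filter fun y : Y → Fin q =>
          g ∉ badG ∧ (y (x g), y (x (s g))) ∈ ex) = ∅ := by
          ext y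
          simp [he]
        rw [this]
        simp
      · rw [← cnt2 (x g) (x (s g)) (hg g hgb) w.1 w.2]
        refine Nat.mul_le_mul_right _ (Finset.card_le_card ?_)
        intro y hy
        rw [Finset.mem_filter] at hy ⊢
        have h1 := Finset.card_le_one.mp hex _ hy.2.2 _ hw
        refine ⟨hy.1, ?_, ?_⟩
        · rw [← h1]
        · rw [← h1]
  have e3 := Finset.sum_le_sum e2
  rwa [Finset.sum_const, Finset.card_univ, smul_eq_mul] at e3

theorem st_UP (F : Type u) [Field F] (h1 : ST_FO) (h2 : ST_HH) (h3 : ST_CF) : ST_UP F := by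
  intro η hη
  obtain ⟨N, hN⟩ := exists_nat_gt (2 / η)
  have hNr : (0 : ℝ) < N := lt_trans (by positivity) hN
  have hN0 : 0 < N := by exact_mod_cast hNr
  obtain ⟨G, Y, iG, dG, iY, dY, nG, s, t, x, badG, hbad, hg⟩ := h1 N hN0
  obtain ⟨q, k, hq, hkq, hrel, hk5⟩ := h3 N
  obtain ⟨H0, A0, a0, a1, a2, a3, a4, adis, acov⟩ := h2 q k hkq hrel
  have hq0 : 0 < q := lt_of_lt_of_le hN0 hq
  have hqr : (0 : ℝ) < q := by exact_mod_cast hq0
  have : Nonempty (Fin q) := ⟨⟨0, hq0⟩⟩
  have : Nonempty (G × (Y → Fin q)) := inferInstance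
  have hb0 : 0 < Fintype.card (G × (Y → Fin q)) := Fintype.card_pos
  obtain ⟨bad, hbaddef⟩ : ∃ bad : Finset (G × (Y → Fin q)), bad = (badG ×ˢ Finset.univ) ∪
      (Finset.univ.filter fun c : G × (Y → Fin q) => c.1 ∉ badG ∧
        pair s x c ∈ Finset.univ \ (Finset.univ.biUnion A0)) := ⟨_, rfl⟩
  obtain ⟨z, z1, z2, bad', z3, z4, z5⟩ := core (F := F) (act s) (act t) (hh s x H0) (AA F x k) bad
    (by
      intro c
      unfold AA
      split_ifs <;> simp)
    (by
      rintro ⟨g, y⟩ hc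
      have hgb : g ∉ badG := by
        intro h
        apply hc
        rw [hbaddef, Finset.mem_union]
        left
        rw [Finset.mem_product]
        exact ⟨h, Finset.mem_univ _⟩
      have hcov : ∃ i, pair s x (g, y) ∈ A0 i := by
        by_contra hcon
        push Not at hcon
        apply hc
        rw [hbaddef, Finset.mem_union]
        right
        rw [Finset.mem_filter]
        refine ⟨Finset.mem_univ _, hgb, ?_⟩
        rw [Finset.mem_sdiff, Finset.mem_biUnion]
        exact ⟨Finset.mem_univ _, fun ⟨i, _, hi⟩ => hcon i hi⟩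
      obtain ⟨f1, f2, f3, f4, f5, f6, f7, f8⟩ := hg g hgb
      have hE := fun i => EW_eq (F := F) s x k H0 A0 a0 a1 a2 a3 a4 (g, y) f1 i
      refine ⟨?_, ?_, ?_, ?_, ?_, ?_, ?_, ?_⟩
      · exact Prod.ext f8.symm rfl
      · show ((s (t g), loc (x g) (x (s g)) H0 y) : G × (Y → Fin q)) =
          (s (t g), loc (x (s (t g))) (x (s (s (t g)))) H0 y)
        rw [f4, f5]
      · show (if (y (x (s (t g))) : ℕ) < k then (1 : F) else 0) =
          if (y (x g) : ℕ) < k then 1 else 0
        rw [f4]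
      · show (if (y (x (s⁻¹ (t g))) : ℕ) < k then (1 : F) else 0) =
          if (y (x (s⁻¹ g)) : ℕ) < k then 1 else 0
        rw [f6]
      · show (if (y (x (s⁻¹ (s⁻¹ (t (s (t⁻¹ g)))))) : ℕ) < k then (1 : F) else 0) =
          if (y (x (s⁻¹ g)) : ℕ) < k then 1 else 0
        rw [f7]
      · show (if ((loc (x g) (x (s g)) H0 y) (x (s⁻¹ g)) : ℕ) < k then (1 : F) else 0) =
          if (y (x (s⁻¹ g)) : ℕ) < k then 1 else 0
        rw [loc_ne _ _ f1 H0 y _ f2.symm f3.symm]
      · intro i j hij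
        rw [hE i, hE j]
        have hd := Finset.disjoint_left.mp (adis i j hij)
        by_cases hi : pair s x (g, y) ∈ A0 i
        · rw [if_neg (hd hi), mul_zero]
        · rw [if_neg hi, zero_mul]
      · obtain ⟨i, hi⟩ := hcov
        have h1 : EW (act s) (hh s x H0) (AA F x k) i (g, y) - 1 = 0 := by
          rw [hE i, if_pos hi, sub_self]
        fin_cases i
        · have h1' : EW (act s) (hh s x H0) (AA F x k) 0 (g, y) - 1 = 0 := h1
          rw [h1']
          ring
        · have h1' : EW (act s) (hh s x H0) (AA F x k) 1 (g, y) - 1 = 0 := h1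
          rw [h1']
          ring
        · have h1' : EW (act s) (hh s x H0) (AA F x k) 2 (g, y) - 1 = 0 := h1
          rw [h1']
          ring
        · have h1' : EW (act s) (hh s x H0) (AA F x k) 3 (g, y) - 1 = 0 := h1
          rw [h1']
          ring
        · have h1' : EW (act s) (hh s x H0) (AA F x k) 4 (g, y) - 1 = 0 := h1
          rw [h1']
          ring)
  refine ⟨Fintype.card (G × (Y → Fin q)), hb0, z, z1, ?_, bad', ?_, z4, z5⟩
  · have c1 := card_A F x k hkq (q := q)
    have c2 : ((Nat.card {c : G × (Y → Fin q) // AA F x k c ≠ 0} : ℕ) : ℝ) * q =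
        k * (Fintype.card (G × (Y → Fin q)) : ℕ) := by exact_mod_cast c1
    have c3 : ((z .e).rank : ℝ) ≤ (Nat.card {c : G × (Y → Fin q) // AA F x k c ≠ 0} : ℕ) := by
      exact_mod_cast z2
    have c4 : ((Nat.card {c : G × (Y → Fin q) // AA F x k c ≠ 0} : ℕ) : ℝ) =
        (k : ℝ) / q * (Fintype.card (G × (Y → Fin q)) : ℕ) := by
      field_simp
      linarith
    rw [c4] at c3
    exact c3.trans (mul_le_mul_of_nonneg_right hk5 (Nat.cast_nonneg _))
  · rw [z3, hbaddef]
    have c1 : (badG ×ˢ (Finset.univ : Finset (Y → Fin q))).card * N ≤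
        Fintype.card (G × (Y → Fin q)) := by
      rw [Finset.card_product, Finset.card_univ, Fintype.card_prod]
      calc badG.card * Fintype.card (Y → Fin q) * N =
          (badG.card * N) * Fintype.card (Y → Fin q) := by ring
        _ ≤ Fintype.card G * Fintype.card (Y → Fin q) := Nat.mul_le_mul_right _ hbad
    have c2 := card_ext s x badG (fun g h => (hg g h).1)
      (Finset.univ \ (Finset.univ.biUnion A0)) acov
    have c3 : (Finset.univ.filter fun c : G × (Y → Fin q) => c.1 ∉ badG ∧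
        pair s x c ∈ Finset.univ \ (Finset.univ.biUnion A0)).card * N ≤
        Fintype.card (G × (Y → Fin q)) :=
      (Nat.mul_le_mul_left _ (hq.trans (Nat.le_mul_self q))).trans c2
    have c4 := Finset.card_union_le (badG ×ˢ (Finset.univ : Finset (Y → Fin q)))
      (Finset.univ.filter fun c : G × (Y → Fin q) => c.1 ∉ badG ∧
        pair s x c ∈ Finset.univ \ (Finset.univ.biUnion A0))
    have c5 := Nat.mul_le_mul_right N c4
    rw [Nat.add_mul] at c5
    have c6 := c5.trans (Nat.add_le_add c1 c3)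
    have c7 : (((badG ×ˢ (Finset.univ : Finset (Y → Fin q))) ∪
      (Finset.univ.filter fun c : G × (Y → Fin q) => c.1 ∉ badG ∧
        pair s x c ∈ Finset.univ \ (Finset.univ.biUnion A0))).card : ℝ) * N ≤
        2 * (Fintype.card (G × (Y → Fin q)) : ℕ) := by
      have : (((badG ×ˢ (Finset.univ : Finset (Y → Fin q))) ∪
        (Finset.univ.filter fun c : G × (Y → Fin q) => c.1 ∉ badG ∧
        pair s x c ∈ Finset.univ \ (Finset.univ.biUnion A0))).card : ℝ) * N ≤
        (Fintype.card (G × (Y → Fin q)) : ℕ) + (Fintype.card (G × (Y → Fin q)) : ℕ) := by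
        exact_mod_cast c6
      linarith
    have c8 : 2 ≤ η * N := by
      rw [div_lt_iff₀ hη] at hN
      linarith
    have hB : (0 : ℝ) ≤ (Fintype.card (G × (Y → Fin q)) : ℕ) := Nat.cast_nonneg _
    refine le_of_mul_le_mul_right ?_ hNr
    calc _ ≤ 2 * ((Fintype.card (G × (Y → Fin q)) : ℕ) : ℝ) := c7
      _ ≤ η * N * ((Fintype.card (G × (Y → Fin q)) : ℕ) : ℝ) :=
          mul_le_mul_of_nonneg_right c8 hB
      _ = η * ((Fintype.card (G × (Y → Fin q)) : ℕ) : ℝ) * N := by ring

end Pool.Agent.Helper51.FR
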