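import Pool.Agent.Helper42.FR.Stmts

/-!
# Row UP, abstract part: monomial matrices
-/

set_option autoImplicit false

namespace Pool.Agent.Helper51.FR

open Matrix Pool.Agent.Helper81.Fmr Pool.Agent.Helper42.FR

universe u

section
variable {F : Type u} [Field F] {Z : Type}

/-- weights of the idempotents -/
def EW (S H : Equiv.Perm Z) (A : Z → F) : Fin 5 → Z → F
  | 0 => A
  | 1 => fun z => A (H⁻¹ z)
  | 2 => fun z => A (H⁻¹ (H⁻¹ z))
  | 3 => fun z => A (H⁻¹ (H⁻¹ (H⁻¹ z)))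
  | 4 => fun z => A (H⁻¹ (H⁻¹ (H⁻¹ (H⁻¹ z)))) * A (S (H⁻¹ (H⁻¹ (H⁻¹ (H⁻¹ z)))))

def GW (S H : Equiv.Perm Z) (A : Z → F) : Fin 3 → Z → F
  | 0 => fun z => A (H⁻¹ z) * A (S (H⁻¹ z))
  | 1 => fun z => A (H⁻¹ (H⁻¹ z)) * A (S (H⁻¹ (H⁻¹ z)))
  | 2 => fun z => A (H⁻¹ (H⁻¹ (H⁻¹ z))) * A (S (H⁻¹ (H⁻¹ (H⁻¹ z))))

def hEW (H : Equiv.Perm Z) (A : Z → F) : Fin 3 → Z → F
  | 0 => A
  | 1 => fun z => A (H⁻¹ z)
  | 2 => fun z => A (H⁻¹ (H⁻¹ z))

def hGW (S H : Equiv.Perm Z) (A : Z → F) : Fin 4 → Z → F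
  | 0 => fun z => A z * A (S z)
  | 1 => fun z => A (H⁻¹ z) * A (S (H⁻¹ z))
  | 2 => fun z => A (H⁻¹ (H⁻¹ z)) * A (S (H⁻¹ (H⁻¹ z)))
  | 3 => fun z => A (H⁻¹ (H⁻¹ (H⁻¹ z))) * A (S (H⁻¹ (H⁻¹ (H⁻¹ z))))

def pW (S H : Equiv.Perm Z) (A : Z → F) : Fin 3 → Z → F
  | 0 => fun z => (EW S H A 0 z - 1) * (EW S H A 1 z - 1)
  | 1 => fun z => (EW S H A 0 z - 1) * (EW S H A 1 z - 1) * (EW S H A 2 z - 1)
  | 2 => fun z => (EW S H A 0 z - 1) * (EW S H A 1 z - 1) * (EW S H A 2 z - 1) *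
      (EW S H A 3 z - 1)

/-- weights -/
def Wt (S T H : Equiv.Perm Z) (A : Z → F) : Vr → Z → F
  | .zero => fun _ => 0
  | .e => A
  | .e1 => fun z => A (S⁻¹ z)
  | .em => fun z => A (S z)
  | .se => A
  | .es => fun z => A (S z)
  | .est => fun z => A (S (T z))
  | .te1 => fun z => A (S⁻¹ z)
  | .ke1 => fun z => A (S⁻¹ z)
  | .he1 => fun z => A (S⁻¹ z)
  | .ee1 => fun z => A z * A (S⁻¹ z)
  | .q => fun z => A z * A (S z)
  | .E i => EW S H A i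
  | .G i => GW S H A i
  | .hE i => hEW H A i
  | .hG i => hGW S H A i
  | .n i => fun z => EW S H A i z - 1
  | .p i => pW S H A i
  | _ => fun _ => 1

/-- maps -/
def Pm (S T H : Equiv.Perm Z) : Vr → Equiv.Perm Z
  | .s => S
  | .s' => S⁻¹
  | .t => T
  | .t' => T⁻¹
  | .h => H
  | .h' => H⁻¹
  | .k => S⁻¹ * T * S * T⁻¹
  | .se => S
  | .es => S
  | .ts => T * S
  | .sk => S * (S⁻¹ * T * S * T⁻¹)
  | .st => S * T
  | .kst => (S⁻¹ * T * S * T⁻¹) * (S * T)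
  | .hst => H * (S * T)
  | .est => S * T
  | .te1 => T
  | .ke1 => S⁻¹ * T * S * T⁻¹
  | .he1 => H
  | .hE _ => H
  | .hG _ => H
  | _ => 1

theorem prods (S T H : Equiv.Perm Z) (A : Z → F) (c : Z) (hA : ∀ z, A z * A z = A z)
    (h1 : S (T (S⁻¹ (T (S (T⁻¹ c))))) = S⁻¹ (T (S (T⁻¹ (S (T c))))))
    (h2 : S (T (H c)) = H (S (T c))) (h3 : A (S (T c)) = A c)
    (h4 : A (S⁻¹ (T c)) = A (S⁻¹ c)) (h5 : A (S⁻¹ (S⁻¹ (T (S (T⁻¹ c))))) = A (S⁻¹ c))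
    (h6 : A (S⁻¹ (H c)) = A (S⁻¹ c))
    (h7 : ∀ i j, i ≠ j → EW S H A i c * EW S H A j c = 0)
    (h8 : (EW S H A 0 c - 1) * (EW S H A 1 c - 1) * (EW S H A 2 c - 1) *
      (EW S H A 3 c - 1) * (EW S H A 4 c - 1) = 0) :
    ∀ p ∈ pr, Wt S T H A p.1 (Pm S T H p.2.1 c) * Wt S T H A p.2.1 c = Wt S T H A p.2.2 c ∧
      (Wt S T H A p.2.2 c = 0 ∨ Pm S T H p.1 (Pm S T H p.2.1 c) = Pm S T H p.2.2 c) := by
  have hE : ∀ i j : Fin 5, i ≠ j →
      Wt S T H A (.E i) (Pm S T H (.E j) c) * Wt S T H A (.E j) c = Wt S T H A .zero c ∧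
      (Wt S T H A .zero c = 0 ∨ Pm S T H (.E i) (Pm S T H (.E j) c) = Pm S T H .zero c) :=
    fun i j hij => ⟨h7 i j hij, Or.inl rfl⟩
  have h17 : Wt S T H A .st (Pm S T H .k c) * Wt S T H A .k c = Wt S T H A .kst c ∧
      (Wt S T H A .kst c = 0 ∨ Pm S T H .st (Pm S T H .k c) = Pm S T H .kst c) :=
    ⟨one_mul 1, Or.inr h1⟩
  have h23 : Wt S T H A .e1 (Pm S T H .t c) * Wt S T H A .t c = Wt S T H A .te1 c ∧
      (Wt S T H A .te1 c = 0 ∨ Pm S T H .e1 (Pm S T H .t c) = Pm S T H .te1 c) :=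
    ⟨(mul_one _).trans h4, Or.inr rfl⟩
  have h25 : Wt S T H A .e1 (Pm S T H .k c) * Wt S T H A .k c = Wt S T H A .ke1 c ∧
      (Wt S T H A .ke1 c = 0 ∨ Pm S T H .e1 (Pm S T H .k c) = Pm S T H .ke1 c) :=
    ⟨(mul_one _).trans h5, Or.inr rfl⟩
  have h27 : Wt S T H A .e1 (Pm S T H .h c) * Wt S T H A .h c = Wt S T H A .he1 c ∧
      (Wt S T H A .he1 c = 0 ∨ Pm S T H .e1 (Pm S T H .h c) = Pm S T H .he1 c) :=
    ⟨(mul_one _).trans h6, Or.inr rfl⟩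
  have h29 : Wt S T H A .e1 (Pm S T H .e c) * Wt S T H A .e c = Wt S T H A .ee1 c ∧
      (Wt S T H A .ee1 c = 0 ∨ Pm S T H .e1 (Pm S T H .e c) = Pm S T H .ee1 c) :=
    ⟨mul_comm _ _, Or.inr rfl⟩
  have h69 : Wt S T H A (.p 2) (Pm S T H (.n 4) c) * Wt S T H A (.n 4) c = Wt S T H A .zero c ∧
      (Wt S T H A .zero c = 0 ∨ Pm S T H (.p 2) (Pm S T H (.n 4) c) = Pm S T H .zero c) :=
    ⟨h8, Or.inl rfl⟩
  simp only [pr, List.mem_cons, List.not_mem_nil, or_false, forall_eq_or_imp, forall_eq]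
  refine ⟨?_, ?_, ?_, ?_, ?_, ?_, ?_, ?_, ?_, ?_, ?_, ?_, ?_, ?_, ?_, ?_, ?_, ?_, ?_, ?_, ?_, ?_,
    ?_, ?_, ?_, ?_, ?_, ?_, ?_, ?_, ?_, ?_, ?_, ?_, ?_, ?_, ?_, ?_, ?_, ?_, ?_, ?_, ?_, ?_, ?_,
    ?_, ?_, ?_, ?_, ?_, ?_, ?_, ?_, ?_, ?_, ?_, ?_, ?_, ?_, ?_, ?_, ?_, ?_, ?_, ?_, ?_, ?_, ?_, ?_⟩
  all_goals first
    | exact h17
    | exact h23
    | exact h25
    | exact h27
    | exact h29
    | exact h69
    | exact hE _ _ (by decide)
    | simp [Wt, Pm, EW, GW, hEW, hGW, pW, hA, h2, h3]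

/-- monomial matrix -/
def mon [DecidableEq Z] (w : Z → F) (π : Z → Z) : Matrix Z Z F :=
  fun a c => if a = π c then w c else 0

theorem mon_mul [Fintype Z] [DecidableEq Z] (w w' : Z → F) (π π' : Z → Z) (a c : Z) :
    (mon w π * mon w' π') a c = if a = π (π' c) then w (π' c) * w' c else 0 := by
  rw [Matrix.mul_apply, Finset.sum_eq_single (π' c)]
  · simp only [mon, if_true]
    split_ifs <;> simp
  · intro d _ hd
    simp only [mon]
    rw [if_neg hd, mul_zero]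
  · intro h
    exact absurd (Finset.mem_univ _) h

/-- the matrices -/
theorem core [Fintype Z] [DecidableEq Z] (S T H : Equiv.Perm Z) (A : Z → F) (bad : Finset Z)
    (hA : ∀ z, A z * A z = A z)
    (h : ∀ c, c ∉ bad →
      S (T (S⁻¹ (T (S (T⁻¹ c))))) = S⁻¹ (T (S (T⁻¹ (S (T c))))) ∧
      S (T (H c)) = H (S (T c)) ∧ A (S (T c)) = A c ∧
      A (S⁻¹ (T c)) = A (S⁻¹ c) ∧ A (S⁻¹ (S⁻¹ (T (S (T⁻¹ c))))) = A (S⁻¹ c) ∧
      A (S⁻¹ (H c)) = A (S⁻¹ c) ∧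
      (∀ i j, i ≠ j → EW S H A i c * EW S H A j c = 0) ∧
      (EW S H A 0 c - 1) * (EW S H A 1 c - 1) * (EW S H A 2 c - 1) *
      (EW S H A 3 c - 1) * (EW S H A 4 c - 1) = 0) :
    ∃ z : Vr → Matrix (Fin (Fintype.card Z)) (Fin (Fintype.card Z)) F,
      (∀ i a, (SY F).k i = some a → z i = a • 1) ∧
      (z .e).rank ≤ Nat.card {c : Z // A c ≠ 0} ∧
      ∃ bad' : Finset (Fin (Fintype.card Z)), bad'.card = bad.card ∧
      (∀ m, ∀ c, c ∉ bad' → ∀ a, (z ((SY F).l m) * z ((SY F).r m)) a c = z ((SY F).o m) a c) ∧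
      (∀ i j a, i ≠ j → (SY F).d i j = some a → z i - z j = a • 1) := by
  classical
  let f : Fin (Fintype.card Z) ≃ Z := (Fintype.equivFin Z).symm
  refine ⟨fun v => (mon (Wt S T H A v) (Pm S T H v)).submatrix f f, ?_, ?_,
    bad.map f.symm.toEmbedding, Finset.card_map _, ?_, ?_⟩
  · intro i a hi
    cases i <;> simp only [SY] at hi
    all_goals try exact absurd hi (Option.some_ne_none a).symm
    · obtain rfl : (1 : F) = a := by simpa using hi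
      ext a c
      simp [mon, Wt, Pm, Matrix.one_apply]
    · obtain rfl : (0 : F) = a := by simpa using hi
      ext a c
      simp [mon, Wt, Pm]
  · rw [Matrix.rank_submatrix]
    have e1 : mon (Wt S T H A .e) (Pm S T H .e) = Matrix.diagonal A := by
      ext a c
      simp only [mon, Wt, Pm, Matrix.diagonal_apply, Equiv.Perm.one_apply]
      by_cases h1 : a = c
      · subst h1
        simp
      · simp [h1]
    rw [e1, Matrix.rank_diagonal, Nat.card_eq_fintype_card]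
  · intro m c hc a
    have hc' : f c ∉ bad := by
      intro h1
      apply hc
      rw [Finset.mem_map]
      exact ⟨f c, h1, by simp⟩
    obtain ⟨g1, g2, g3, g4, g5, g6, g7, g8⟩ := h (f c) hc'
    have hp := prods S T H A (f c) hA g1 g2 g3 g4 g5 g6 g7 g8 (pr.get m) (List.get_mem _ _)
    have e1 : ((SY F).l m) = (pr.get m).1 := rfl
    have e2 : ((SY F).r m) = (pr.get m).2.1 := rfl
    have e3 : ((SY F).o m) = (pr.get m).2.2 := rfl
    rw [e1, e2, e3]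
    generalize pr.get m = p at hp
    rw [Matrix.submatrix_mul_equiv]
    show (mon (Wt S T H A p.1) (Pm S T H p.1) * mon (Wt S T H A p.2.1) (Pm S T H p.2.1))
      (f a) (f c) = mon (Wt S T H A p.2.2) (Pm S T H p.2.2) (f a) (f c)
    rw [mon_mul]
    obtain ⟨q1, q2⟩ := hp
    rw [q1]
    simp only [mon]
    rcases q2 with q2 | q2
    · rw [q2]
      simp
    · rw [q2]
  · intro i j a hij hd
    cases i <;> cases j <;> simp only [SY] at hd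
    all_goals try exact absurd hd (Option.some_ne_none a).symm
    rename_i i j
    by_cases hi : i = j
    · subst hi
      obtain rfl : (1 : F) = a := by simpa using hd
      ext a c
      simp only [Matrix.sub_apply, Matrix.submatrix_apply, mon, Wt, Pm, Equiv.Perm.one_apply,
        one_smul, Matrix.one_apply, EmbeddingLike.apply_eq_iff_eq]
      split_ifs <;> simp
    · simp [hi] at hd

end

end Pool.Agent.Helper51.FR
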